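import Pool.Agent.Lib.MP_a542cf_al.Defs

/-! MW2-FrickeWord: the trace of a word is an integral polynomial in the three traces. -/

namespace MW

open Matrix

private theorem h_frickeword_det {F : Type*} [Field F] (A : SL2 F) :
    (A : Matrix (Fin 2) (Fin 2) F) 0 0 * (A : Matrix (Fin 2) (Fin 2) F) 1 1 -
      (A : Matrix (Fin 2) (Fin 2) F) 0 1 * (A : Matrix (Fin 2) (Fin 2) F) 1 0 = 1 := by
  have h := A.det_coe
  rwa [Matrix.det_fin_two] at h

private theorem h_frickeword_sq {F : Type*} [Field F] (A : SL2 F) :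
    (A : Matrix (Fin 2) (Fin 2) F) * A = tr A • (A : Matrix (Fin 2) (Fin 2) F) - 1 := by
  have h := h_frickeword_det A
  ext i j
  fin_cases i <;> fin_cases j <;>
    simp [Matrix.mul_apply, Fin.sum_univ_two, tr, Matrix.trace_fin_two] <;>
    first | linear_combination h | linear_combination (-1 : F) * h | ring1

private theorem h_frickeword_inv {F : Type*} [Field F] (A : SL2 F) :
    ((A⁻¹ : SL2 F) : Matrix (Fin 2) (Fin 2) F) =
      tr A • (1 : Matrix (Fin 2) (Fin 2) F) - (A : Matrix (Fin 2) (Fin 2) F) := by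
  rw [Matrix.SpecialLinearGroup.coe_inv, Matrix.adjugate_fin_two]
  ext i j
  fin_cases i <;> fin_cases j <;>
    simp [tr, Matrix.trace_fin_two]

private theorem h_frickeword_swap {F : Type*} [Field F] (A B : SL2 F) :
    (B : Matrix (Fin 2) (Fin 2) F) * A =
      -((A : Matrix (Fin 2) (Fin 2) F) * B) + tr A • (B : Matrix (Fin 2) (Fin 2) F) +
        tr B • (A : Matrix (Fin 2) (Fin 2) F) +
        (tr (A * B) - tr A * tr B) • (1 : Matrix (Fin 2) (Fin 2) F) := by
  ext i j
  fin_cases i <;> fin_cases j <;>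
    simp [Matrix.mul_apply, Fin.sum_univ_two, tr, Matrix.trace_fin_two] <;>
    ring

/-- representable words -/
private def h_frickeword_Rep (w : FreeGroup (Fin 2)) : Prop :=
  ∃ f₀ f₁ f₂ f₃ : MvPolynomial (Fin 3) ℤ, ∀ (F : Type) [Field F] (P : SL2 F × SL2 F),
    ((FreeGroup.lift ![P.1, P.2] w : SL2 F) : Matrix (Fin 2) (Fin 2) F) =
      MvPolynomial.aeval ![(triple P).1, (triple P).2.1, (triple P).2.2] f₀ •
          (1 : Matrix (Fin 2) (Fin 2) F) +
        MvPolynomial.aeval ![(triple P).1, (triple P).2.1, (triple P).2.2] f₁ •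
          (P.1 : Matrix (Fin 2) (Fin 2) F) +
        MvPolynomial.aeval ![(triple P).1, (triple P).2.1, (triple P).2.2] f₂ •
          (P.2 : Matrix (Fin 2) (Fin 2) F) +
        MvPolynomial.aeval ![(triple P).1, (triple P).2.1, (triple P).2.2] f₃ •
          ((P.1 : Matrix (Fin 2) (Fin 2) F) * P.2)

private theorem h_frickeword_mulA (v : FreeGroup (Fin 2)) (hv : h_frickeword_Rep v) :
    h_frickeword_Rep (FreeGroup.of 0 * v) := by
  obtain ⟨f₀, f₁, f₂, f₃, hf⟩ := hv
  refine ⟨-f₁, f₀ + MvPolynomial.X 0 * f₁, -f₃, f₂ + MvPolynomial.X 0 * f₃, ?_⟩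
  intro F _ P
  have h := hf F P
  have hsq := h_frickeword_sq P.1
  rw [map_mul, Matrix.SpecialLinearGroup.coe_mul, h, FreeGroup.lift_apply_of]
  simp only [map_neg, map_add, map_mul, MvPolynomial.aeval_X, Matrix.cons_val_zero, mul_add,
    Matrix.mul_smul, mul_one, ← mul_assoc, hsq]
  simp only [triple]
  rw [sub_mul, smul_mul_assoc, one_mul]
  module

private theorem h_frickeword_mulB (v : FreeGroup (Fin 2)) (hv : h_frickeword_Rep v) :
    h_frickeword_Rep (FreeGroup.of 1 * v) := by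
  obtain ⟨f₀, f₁, f₂, f₃, hf⟩ := hv
  refine ⟨(MvPolynomial.X 2 - MvPolynomial.X 0 * MvPolynomial.X 1) * f₁ - f₂ - MvPolynomial.X 0 * f₃,
    MvPolynomial.X 1 * f₁ + f₃,
    f₀ + MvPolynomial.X 0 * f₁ + MvPolynomial.X 1 * f₂ + MvPolynomial.X 2 * f₃, -f₁, ?_⟩
  intro F _ P
  have h := hf F P
  have hsq := h_frickeword_sq P.2
  have hsw := h_frickeword_swap P.1 P.2
  have hBAB : (P.2 : Matrix (Fin 2) (Fin 2) F) * P.1 * P.2 =
      (P.1 : Matrix (Fin 2) (Fin 2) F) + tr (P.1 * P.2) • (P.2 : Matrix (Fin 2) (Fin 2) F) -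
        tr P.1 • (1 : Matrix (Fin 2) (Fin 2) F) := by
    rw [hsw, add_mul, add_mul, add_mul, neg_mul, mul_assoc, hsq, smul_mul_assoc, hsq,
      smul_mul_assoc, smul_mul_assoc, one_mul, mul_sub, mul_one, Matrix.mul_smul]
    module
  rw [map_mul, Matrix.SpecialLinearGroup.coe_mul, h, FreeGroup.lift_apply_of]
  simp only [Matrix.cons_val_one, Matrix.cons_val_zero, mul_add, Matrix.mul_smul, mul_one,
    ← mul_assoc, hBAB]
  rw [hsq, hsw]
  simp only [map_neg, map_add, map_sub, map_mul, MvPolynomial.aeval_X, Matrix.cons_val_zero,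
    Matrix.cons_val_one, Matrix.cons_val, triple]
  module

private theorem h_frickeword_smul (g : MvPolynomial (Fin 3) ℤ) (u v w : FreeGroup (Fin 2))
    (hu : h_frickeword_Rep u) (hv : h_frickeword_Rep v)
    (h : ∀ (F : Type) [Field F] (P : SL2 F × SL2 F),
      ((FreeGroup.lift ![P.1, P.2] w : SL2 F) : Matrix (Fin 2) (Fin 2) F) =
        MvPolynomial.aeval ![(triple P).1, (triple P).2.1, (triple P).2.2] g •
          ((FreeGroup.lift ![P.1, P.2] u : SL2 F) : Matrix (Fin 2) (Fin 2) F) -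
        ((FreeGroup.lift ![P.1, P.2] v : SL2 F) : Matrix (Fin 2) (Fin 2) F)) :
    h_frickeword_Rep w := by
  obtain ⟨f₀, f₁, f₂, f₃, hf⟩ := hu
  obtain ⟨g₀, g₁, g₂, g₃, hg⟩ := hv
  refine ⟨g * f₀ - g₀, g * f₁ - g₁, g * f₂ - g₂, g * f₃ - g₃, ?_⟩
  intro F _ P
  rw [h F P, hf F P, hg F P]
  simp only [map_sub, map_mul]
  module

private theorem h_frickeword_invA (v : FreeGroup (Fin 2)) (hv : h_frickeword_Rep v) :
    h_frickeword_Rep ((FreeGroup.of 0)⁻¹ * v) := by
  refine h_frickeword_smul (MvPolynomial.X 0) v _ _ hv (h_frickeword_mulA v hv) ?_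
  intro F _ P
  rw [map_mul, map_mul, Matrix.SpecialLinearGroup.coe_mul, Matrix.SpecialLinearGroup.coe_mul,
    map_inv, FreeGroup.lift_apply_of, Matrix.cons_val_zero, h_frickeword_inv, sub_mul,
    smul_mul_assoc, one_mul, MvPolynomial.aeval_X]
  rfl

private theorem h_frickeword_invB (v : FreeGroup (Fin 2)) (hv : h_frickeword_Rep v) :
    h_frickeword_Rep ((FreeGroup.of 1)⁻¹ * v) := by
  refine h_frickeword_smul (MvPolynomial.X 1) v _ _ hv (h_frickeword_mulB v hv) ?_
  intro F _ P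
  rw [map_mul, map_mul, Matrix.SpecialLinearGroup.coe_mul, Matrix.SpecialLinearGroup.coe_mul,
    map_inv, FreeGroup.lift_apply_of, Matrix.cons_val_one, Matrix.cons_val_zero,
    h_frickeword_inv, sub_mul, smul_mul_assoc, one_mul, MvPolynomial.aeval_X]
  rfl

private theorem h_frickeword_rep (w : FreeGroup (Fin 2)) :
    ∀ v, h_frickeword_Rep v → h_frickeword_Rep (w * v) := by
  refine FreeGroup.induction_on (C := fun w => ∀ v, h_frickeword_Rep v → h_frickeword_Rep (w * v))
    w ?_ ?_ ?_ ?_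
  · intro v hv
    rwa [one_mul]
  · intro i v hv
    fin_cases i
    · exact h_frickeword_mulA v hv
    · exact h_frickeword_mulB v hv
  · intro i _ v hv
    fin_cases i
    · exact h_frickeword_invA v hv
    · exact h_frickeword_invB v hv
  · intro x y hx hy v hv
    rw [mul_assoc]
    exact hx _ (hy _ hv)

theorem frickeWord (w : FreeGroup (Fin 2)) : ∃ f : MvPolynomial (Fin 3) ℤ,
    ∀ (F : Type) [Field F] (P : SL2 F × SL2 F),
      tr (FreeGroup.lift ![P.1, P.2] w) =
        MvPolynomial.aeval ![(triple P).1, (triple P).2.1, (triple P).2.2] f := by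
  have h1 : h_frickeword_Rep 1 := by
    refine ⟨1, 0, 0, 0, ?_⟩
    intro F _ P
    simp
  have hw := h_frickeword_rep w 1 h1
  rw [mul_one] at hw
  obtain ⟨f₀, f₁, f₂, f₃, hf⟩ := hw
  refine ⟨2 * f₀ + MvPolynomial.X 0 * f₁ + MvPolynomial.X 1 * f₂ + MvPolynomial.X 2 * f₃, ?_⟩
  intro F _ P
  rw [tr, hf F P]
  simp only [Matrix.trace_add, Matrix.trace_smul, map_add, map_mul, MvPolynomial.aeval_X,
    Matrix.cons_val_zero, Matrix.cons_val_one, Matrix.cons_val, Matrix.trace_one, smul_eq_mul,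
    Fintype.card_fin, map_ofNat]
  simp only [triple, tr, Matrix.SpecialLinearGroup.coe_mul]
  push_cast
  ring

/-- every triple over an algebraically closed field is the triple of a pair -/
theorem pair_of_triple {F : Type*} [Field F] [IsAlgClosed F] (v : F × F × F) :
    ∃ P : SL2 F × SL2 F, triple P = v := by
  obtain ⟨x, y, z⟩ := v
  obtain ⟨b, hb0, hb⟩ : ∃ b : F, b ≠ 0 ∧ b + b⁻¹ = z - x * y := by
    have hdeg : (Polynomial.X ^ 2 - Polynomial.C (z - x * y) * Polynomial.X + 1 :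
        Polynomial F).degree ≠ 0 := by
      have : (Polynomial.X ^ 2 - Polynomial.C (z - x * y) * Polynomial.X + 1 :
        Polynomial F).degree = 2 := by
        compute_degree!
      rw [this]
      decide
    obtain ⟨b, hb⟩ := IsAlgClosed.exists_root _ hdeg
    simp only [Polynomial.IsRoot.def, Polynomial.eval_add, Polynomial.eval_sub,
      Polynomial.eval_pow, Polynomial.eval_X, Polynomial.eval_mul, Polynomial.eval_C,
      Polynomial.eval_one] at hb
    have hb0 : b ≠ 0 := by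
      rintro rfl
      simp at hb
    refine ⟨b, hb0, ?_⟩
    field_simp
    linear_combination hb
  let A : SL2 F := ⟨!![x, -1; 1, 0], by simp [Matrix.det_fin_two]⟩
  let B : SL2 F := ⟨!![y, b; -b⁻¹, 0], by simp [Matrix.det_fin_two, hb0]⟩
  have hA : (A : Matrix (Fin 2) (Fin 2) F) = !![x, -1; 1, 0] := rfl
  have hB : (B : Matrix (Fin 2) (Fin 2) F) = !![y, b; -b⁻¹, 0] := rfl
  have hAB : ((A * B : SL2 F) : Matrix (Fin 2) (Fin 2) F) =
      !![x * y + b⁻¹, x * b; y, b] := by
    rw [Matrix.SpecialLinearGroup.coe_mul, hA, hB]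
    ext i j
    fin_cases i <;> fin_cases j <;> simp [Matrix.mul_apply, Fin.sum_univ_two]
  refine ⟨(A, B), ?_⟩
  simp only [triple, tr]
  rw [hA, hB, hAB]
  simp only [Matrix.trace_fin_two_of, add_zero]
  have : x * y + b⁻¹ + b = z := by linear_combination hb
  rw [this]

end MW
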