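import Mathlib

/-! MW2-Kron: Kronecker: few algebraic integers of bounded degree have all conjugates in
`[-2, 2]`. -/

namespace MW

open Polynomial

theorem h_kron_totient_odd (m : ℕ) (hm : Odd m) : m ≤ m.totient ^ 2 := by
  induction m using Nat.recOnPosPrimePosCoprime with
  | prime_pow p n hp hn =>
    have hp3 : 3 ≤ p := by
      rcases hp.eq_two_or_odd' with h | h
      · subst h
        exfalso
        have h2 : Even (2 ^ n) := by
          rw [Nat.even_pow]
          exact ⟨even_two, hn.ne'⟩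
        exact (Nat.not_even_iff_odd.mpr hm) h2
      · have := hp.two_le
        rcases h with ⟨k, hk⟩
        omega
    obtain ⟨k, rfl⟩ : ∃ k, n = k + 1 := ⟨n - 1, by omega⟩
    rw [Nat.totient_prime_pow_succ hp]
    obtain ⟨q, rfl⟩ : ∃ q, p = q + 3 := ⟨p - 3, by omega⟩
    have h1 : 1 ≤ (q + 3) ^ k := Nat.one_le_pow _ _ (by omega)
    have h2 : q + 3 ≤ (q + 2) ^ 2 := by nlinarith
    have h3 : q + 3 - 1 = q + 2 := by omega
    rw [h3]
    calc (q + 3) ^ (k + 1) = (q + 3) ^ k * (q + 3) := pow_succ _ _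
      _ ≤ (q + 3) ^ k * (q + 2) ^ 2 := Nat.mul_le_mul_left _ h2
      _ = (1 * (q + 3) ^ k) * (q + 2) ^ 2 := by rw [one_mul]
      _ ≤ ((q + 3) ^ k * (q + 3) ^ k) * (q + 2) ^ 2 :=
          Nat.mul_le_mul_right _ (Nat.mul_le_mul_right _ h1)
      _ = ((q + 3) ^ k * (q + 2)) ^ 2 := by ring
  | zero => exact absurd hm (by decide)
  | one => simp
  | coprime a b ha hb hab iha ihb =>
    have h1 : Odd a := (Nat.odd_mul.mp hm).1
    have h2 : Odd b := (Nat.odd_mul.mp hm).2
    rw [Nat.totient_mul hab, mul_pow]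
    exact Nat.mul_le_mul (iha h1) (ihb h2)

theorem h_kron_totient (n : ℕ) (hn : n ≠ 0) : n ≤ 2 * n.totient ^ 2 := by
  obtain ⟨a, m, hm, rfl⟩ := Nat.exists_eq_two_pow_mul_odd hn
  have hc : Nat.Coprime (2 ^ a) m := (Nat.coprime_two_left.mpr hm).pow_left a
  rw [Nat.totient_mul hc, mul_pow]
  have h1 := h_kron_totient_odd m hm
  have h2 : 2 ^ a ≤ 2 * (2 ^ a : ℕ).totient ^ 2 := by
    rcases a with _ | a
    · simp
    · rw [Nat.totient_prime_pow_succ Nat.prime_two]
      have h3 : 1 ≤ 2 ^ a := Nat.one_le_two_pow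
      have h4 : 2 ^ a ≤ 2 ^ a * 2 ^ a := Nat.le_mul_of_pos_left _ h3
      calc 2 ^ (a + 1) = 2 * 2 ^ a := by ring
        _ ≤ 2 * (2 ^ a * 2 ^ a) := Nat.mul_le_mul_left _ h4
        _ = 2 * (2 ^ a * (2 - 1)) ^ 2 := by norm_num; ring
  calc 2 ^ a * m ≤ (2 * (2 ^ a : ℕ).totient ^ 2) * (m.totient ^ 2) := Nat.mul_le_mul h2 h1
    _ = 2 * ((2 ^ a : ℕ).totient ^ 2 * m.totient ^ 2) := by ring

noncomputable def h_kron_G (P : ℚ[X]) : ℚ[X] :=
  ∑ i ∈ Finset.range (P.natDegree + 1), C (P.coeff i) * X ^ (P.natDegree - i) * (X ^ 2 + 1) ^ i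

theorem h_kron_aeval (P : ℚ[X]) (v : ℂ) (hv : v ≠ 0) :
    aeval v (h_kron_G P) = v ^ P.natDegree * aeval (v + v⁻¹) P := by
  rw [h_kron_G, map_sum, aeval_eq_sum_range, Finset.mul_sum]
  refine Finset.sum_congr rfl fun i hi => ?_
  have hi' : i ≤ P.natDegree := by
    have := Finset.mem_range.mp hi
    omega
  simp only [map_mul, map_pow, aeval_C, aeval_X, map_add, map_one]
  rw [Algebra.smul_def]
  have h1 : v ^ P.natDegree = v ^ (P.natDegree - i) * v ^ i := by
    rw [← pow_add, Nat.sub_add_cancel hi']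
  have h2 : v ^ i * (v + v⁻¹) ^ i = (v ^ 2 + 1) ^ i := by
    rw [← mul_pow]
    congr 1
    field_simp
  rw [h1, ← h2]
  ring

theorem h_kron_eval_zero (P : ℚ[X]) : (h_kron_G P).eval 0 = P.leadingCoeff := by
  rw [h_kron_G, eval_finsetSum]
  rw [Finset.sum_eq_single P.natDegree]
  · simp
  · intro i hi hne
    have hi' : P.natDegree - i ≠ 0 := by
      have := Finset.mem_range.mp hi
      omega
    simp [zero_pow hi']
  · intro h
    exact absurd (Finset.mem_range.mpr (by omega)) h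

theorem h_kron_natDegree (P : ℚ[X]) : (h_kron_G P).natDegree ≤ 2 * P.natDegree := by
  rw [h_kron_G]
  refine natDegree_sum_le_of_forall_le _ _ fun i hi => ?_
  have hi' : i ≤ P.natDegree := by
    have := Finset.mem_range.mp hi
    omega
  have h1 : ((X : ℚ[X]) ^ 2 + 1).natDegree ≤ 2 := by
    refine (natDegree_add_le _ _).trans ?_
    simp
  calc (C (P.coeff i) * X ^ (P.natDegree - i) * (X ^ 2 + 1) ^ i).natDegree
      ≤ (C (P.coeff i) * X ^ (P.natDegree - i)).natDegree + (((X : ℚ[X]) ^ 2 + 1) ^ i).natDegree :=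
        natDegree_mul_le
    _ ≤ (P.natDegree - i) + i * 2 := by
        gcongr
        · exact natDegree_C_mul_X_pow_le _ _
        · exact (natDegree_pow_le).trans (Nat.mul_le_mul_left _ h1)
    _ ≤ 2 * P.natDegree := by omega

theorem h_kron_norm (v : ℂ) (r : ℝ) (hr : |r| ≤ 2) (hv0 : v ≠ 0) (h : v + v⁻¹ = (r : ℂ)) :
    ‖v‖ = 1 := by
  have h1 : v ^ 2 - r * v + 1 = 0 := by
    rw [← h]
    field_simp
    ring
  have hre := congrArg Complex.re h1
  have him := congrArg Complex.im h1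
  simp [pow_two] at hre him
  have hr2 : r ^ 2 ≤ 4 := by
    have := sq_le_sq' (by linarith [(abs_le.mp hr).1]) (abs_le.mp hr).2
    linarith
  have key : v.re ^ 2 + v.im ^ 2 = 1 := by
    have h3 : v.im * (2 * v.re - r) = 0 := by linarith
    rcases mul_eq_zero.mp h3 with h4 | h4
    · rw [h4] at hre ⊢
      have h5 : (v.re - r / 2) ^ 2 = r ^ 2 / 4 - 1 := by nlinarith
      have h6 : (v.re - r / 2) ^ 2 ≤ 0 := by rw [h5]; linarith
      have h7 : v.re - r / 2 = 0 := by
        have := le_antisymm h6 (sq_nonneg _)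
        exact pow_eq_zero_iff (two_ne_zero) |>.mp this
      have h8 : r ^ 2 = 4 := by
        rw [h7] at h5
        linarith
      have h9 : v.re = r / 2 := by linarith
      rw [h9]
      nlinarith
    · have h5 : r = 2 * v.re := by linarith
      rw [h5] at hre
      nlinarith
  rw [Complex.norm_def, Complex.normSq_apply, ← pow_two, ← pow_two, key, Real.sqrt_one]

theorem h_kron_integral (α u : ℂ) (hα : IsIntegral ℤ α) (h : u ^ 2 - α * u + 1 = 0) :
    IsIntegral ℤ u := by
  let R := integralClosure ℤ ℂ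
  let a : R := ⟨α, hα⟩
  have h1 : IsIntegral R u := by
    refine ⟨X ^ 2 - C a * X + 1, ?_, ?_⟩
    · have h2 : (X ^ 2 - C a * X + 1 : R[X]) = X ^ 2 + (C (-a) * X + 1) := by
        rw [C_neg]; ring
      rw [h2]
      refine monic_X_pow_add ?_
      refine (degree_add_le _ _).trans_lt (max_lt ?_ ?_)
      · exact (degree_C_mul_X_le _).trans_lt (by norm_num)
      · exact degree_one_le.trans_lt (by norm_num)
    · simp only [eval₂_add, eval₂_sub, eval₂_mul, eval₂_pow, eval₂_X, eval₂_C, eval₂_one]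
      exact h
  exact isIntegral_trans u h1

theorem h_kron_main (d : ℕ) (α : ℂ) (hα : IsIntegral ℤ α) (hd : (minpoly ℚ α).natDegree ≤ d)
    (hr : ∀ β ∈ (minpoly ℚ α).rootSet ℂ, ∃ r : ℝ, |r| ≤ 2 ∧ β = (r : ℂ)) :
    ∃ n : ℕ, 0 < n ∧ n ≤ 8 * d ^ 2 ∧ ∃ u : ℂ, u ^ n = 1 ∧ α = u + u⁻¹ := by
  obtain ⟨s, hs⟩ := IsAlgClosed.exists_pow_nat_eq (α ^ 2 - 4) (n := 2) two_pos
  set u : ℂ := (α + s) / 2 with hu
  have hu1 : u ^ 2 - α * u + 1 = 0 := by
    rw [hu]
    linear_combination (1 / 4) * hs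
  have hu0 : u ≠ 0 := by
    intro h
    rw [h] at hu1
    simp at hu1
  have hα' : α = u + u⁻¹ := by
    field_simp
    linear_combination -hu1
  have hui : IsIntegral ℤ u := h_kron_integral α u hα hu1
  have hαQ : IsIntegral ℚ α := hα.tower_top
  have huQ : IsIntegral ℚ u := hui.tower_top
  set P := minpoly ℚ α with hP
  have hPm : P.Monic := minpoly.monic hαQ
  have hP0 : P ≠ 0 := hPm.ne_zero
  have hG0 : (h_kron_G P).eval 0 ≠ 0 := by
    rw [h_kron_eval_zero, hPm.leadingCoeff]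
    exact one_ne_zero
  have hGne : h_kron_G P ≠ 0 := by
    intro h
    rw [h] at hG0
    simp at hG0
  have hGu : aeval u (h_kron_G P) = 0 := by
    rw [h_kron_aeval P u hu0, ← hα', hP, minpoly.aeval, mul_zero]
  have hdvd : minpoly ℚ u ∣ h_kron_G P := minpoly.dvd ℚ u hGu
  have hdeg : (minpoly ℚ u).natDegree ≤ 2 * d :=
    (natDegree_le_of_dvd hdvd hGne).trans ((h_kron_natDegree P).trans (Nat.mul_le_mul_left _ hd))
  -- all conjugates of u have norm one
  have hconj : ∀ v : ℂ, aeval v (minpoly ℚ u) = 0 → ‖v‖ = 1 := by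
    intro v hv
    have hv1 : aeval v (h_kron_G P) = 0 := by
      obtain ⟨Q, hQ⟩ := hdvd
      rw [hQ, map_mul, hv, zero_mul]
    have hv0 : v ≠ 0 := by
      intro h
      rw [h] at hv1
      apply hG0
      have h1 : aeval (0 : ℂ) (h_kron_G P) = algebraMap ℚ ℂ ((h_kron_G P).eval 0) := by
        rw [← aeval_algebraMap_apply_eq_algebraMap_eval, map_zero]
      rw [h1] at hv1
      exact (map_eq_zero_iff _ (algebraMap ℚ ℂ).injective).mp hv1
    have hv2 : aeval (v + v⁻¹) P = 0 := by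
      rw [h_kron_aeval P v hv0] at hv1
      exact (mul_eq_zero.mp hv1).resolve_left (pow_ne_zero _ hv0)
    obtain ⟨r, hr1, hr2⟩ := hr (v + v⁻¹) ((mem_rootSet).mpr ⟨hP0, hv2⟩)
    exact h_kron_norm v r hr1 hv0 hr2
  -- Kronecker
  have hkr : ∃ n : ℕ, 0 < n ∧ u ^ n = 1 := by
    have : FiniteDimensional ℚ (IntermediateField.adjoin ℚ {u}) :=
      IntermediateField.adjoin.finiteDimensional huQ
    have : NumberField (IntermediateField.adjoin ℚ {u}) := ⟨⟩
    set g := IntermediateField.AdjoinSimple.gen ℚ u with hg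
    have hgi : IsIntegral ℤ g := by
      rw [← isIntegral_algebraMap_iff (A := IntermediateField.adjoin ℚ {u}) (B := ℂ)
        (algebraMap (IntermediateField.adjoin ℚ {u}) ℂ).injective]
      rw [hg, IntermediateField.AdjoinSimple.algebraMap_gen]
      exact hui
    obtain ⟨n, hn, hn1⟩ := NumberField.Embeddings.pow_eq_one_of_norm_eq_one
      (IntermediateField.adjoin ℚ {u}) ℂ hgi (fun φ => by
        refine hconj _ ?_
        have h1 : aeval g (minpoly ℚ u) = 0 := by
          apply (algebraMap (IntermediateField.adjoin ℚ {u}) ℂ).injective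
          rw [← aeval_algebraMap_apply, hg, IntermediateField.AdjoinSimple.algebraMap_gen,
            minpoly.aeval, map_zero]
        have h2 := congrArg φ h1
        rw [map_zero] at h2
        rw [← h2, aeval_def, aeval_def, hom_eval₂]
        congr 1
        exact Subsingleton.elim _ _)
    refine ⟨n, hn, ?_⟩
    have h3 := congrArg (algebraMap (IntermediateField.adjoin ℚ {u}) ℂ) hn1
    rw [map_pow, map_one, hg, IntermediateField.AdjoinSimple.algebraMap_gen] at h3
    exact h3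
  obtain ⟨n, hn, hn1⟩ := hkr
  have hpos : 0 < orderOf u := orderOf_pos_iff.mpr (isOfFinOrder_iff_pow_eq_one.mpr ⟨n, hn, hn1⟩)
  have hprim : IsPrimitiveRoot u (orderOf u) := IsPrimitiveRoot.orderOf u
  have hcyc := cyclotomic_eq_minpoly_rat hprim hpos
  have htot : (orderOf u).totient ≤ 2 * d := by
    rw [← natDegree_cyclotomic (orderOf u) ℚ, hcyc]
    exact hdeg
  refine ⟨orderOf u, hpos, ?_, u, pow_orderOf_eq_one u, hα'⟩
  calc orderOf u ≤ 2 * (orderOf u).totient ^ 2 := h_kron_totient _ hpos.ne'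
    _ ≤ 2 * (2 * d) ^ 2 := by gcongr
    _ = 8 * d ^ 2 := by ring

theorem kron (d : ℕ) : ∃ A : Finset ℂ, A.card ≤ 64 * d ^ 4 ∧
    ∀ α : ℂ, IsIntegral ℤ α → (minpoly ℚ α).natDegree ≤ d →
      (∀ β ∈ (minpoly ℚ α).rootSet ℂ, ∃ r : ℝ, |r| ≤ 2 ∧ β = (r : ℂ)) → α ∈ A := by
  classical
  refine ⟨(Finset.Icc 1 (8 * d ^ 2)).biUnion fun n =>
    (nthRootsFinset n (1 : ℂ)).image fun u => u + u⁻¹, ?_, ?_⟩
  · calc ((Finset.Icc 1 (8 * d ^ 2)).biUnion fun n =>
          (nthRootsFinset n (1 : ℂ)).image fun u => u + u⁻¹).card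
        ≤ ∑ n ∈ Finset.Icc 1 (8 * d ^ 2), ((nthRootsFinset n (1 : ℂ)).image fun u => u + u⁻¹).card :=
          Finset.card_biUnion_le
      _ ≤ ∑ n ∈ Finset.Icc 1 (8 * d ^ 2), n := by
          refine Finset.sum_le_sum fun n hn => Finset.card_image_le.trans ?_
          have hn1 : n ≠ 0 := by
            have := (Finset.mem_Icc.mp hn).1
            omega
          rw [(Complex.isPrimitiveRoot_exp n hn1).card_nthRootsFinset]
      _ ≤ 64 * d ^ 4 := by
          have h1 : ∀ N : ℕ, (∑ n ∈ Finset.Icc 1 N, n) * 2 = N * (N + 1) := by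
            intro N
            induction N with
            | zero => simp
            | succ N ih =>
              rw [Finset.sum_Icc_succ_top (by omega), add_mul, ih]
              ring
          have h2 := h1 (8 * d ^ 2)
          have h3 : 8 * d ^ 2 * (8 * d ^ 2 + 1) ≤ 2 * (64 * d ^ 4) := by
            have h4 : d ^ 2 ≤ d ^ 4 := by
              rcases Nat.eq_zero_or_pos d with h | h
              · simp [h]
              · exact Nat.pow_le_pow_right h (by norm_num)
            nlinarith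
          omega
  · intro α hα hd hr
    obtain ⟨n, hn, hn8, u, hu, hαu⟩ := h_kron_main d α hα hd hr
    refine Finset.mem_biUnion.mpr ⟨n, Finset.mem_Icc.mpr ⟨hn, hn8⟩, ?_⟩
    exact Finset.mem_image.mpr ⟨u, (mem_nthRootsFinset hn (1 : ℂ)).mpr hu, hαu.symm⟩

end MW
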