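import Pool.Agent.Lib.MP_a542cf_al.Defs

/-! MW2-Angle: finite invariant sets of elliptic real triples lie in the compact part. -/

namespace MW

/-- the set `O` together with its images under even sign changes -/
private def h_angle_ext (O : Set (ℝ × ℝ × ℝ)) : Set (ℝ × ℝ × ℝ) :=
  {v | v ∈ O ∨ (-v.1, -v.2.1, v.2.2) ∈ O ∨ (-v.1, v.2.1, -v.2.2) ∈ O ∨
    (v.1, -v.2.1, -v.2.2) ∈ O}

private theorem h_angle_inv {O : Set (ℝ × ℝ × ℝ)} (hO : Inv O) : Inv (h_angle_ext O) := by
  refine ⟨?_, ?_, ?_⟩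
  · rintro x y z (h | h | h | h)
    · exact Or.inl (hO.swap12 _ _ _ h)
    · exact Or.inr (Or.inl (hO.swap12 _ _ _ h))
    · exact Or.inr (Or.inr (Or.inr (hO.swap12 _ _ _ h)))
    · exact Or.inr (Or.inr (Or.inl (hO.swap12 _ _ _ h)))
  · rintro x y z (h | h | h | h)
    · exact Or.inl (hO.swap23 _ _ _ h)
    · exact Or.inr (Or.inr (Or.inl (hO.swap23 _ _ _ h)))
    · exact Or.inr (Or.inl (hO.swap23 _ _ _ h))
    · exact Or.inr (Or.inr (Or.inr (hO.swap23 _ _ _ h)))
  · rintro x y z (h | h | h | h)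
    · exact Or.inl (hO.vieta _ _ _ h)
    · refine Or.inr (Or.inl ?_)
      have h1 := hO.vieta _ _ _ h
      have e : -x * -y - z = x * y - z := by ring
      simp only [e] at h1
      exact h1
    · refine Or.inr (Or.inr (Or.inl ?_))
      have h1 := hO.vieta _ _ _ h
      have e : -x * y - -z = -(x * y - z) := by ring
      simp only [e] at h1
      exact h1
    · refine Or.inr (Or.inr (Or.inr ?_))
      have h1 := hO.vieta _ _ _ h
      have e : x * -y - -z = -(x * y - z) := by ring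
      simp only [e] at h1
      exact h1

private theorem h_angle_fin {O : Set (ℝ × ℝ × ℝ)} (hfin : O.Finite) :
    (h_angle_ext O).Finite := by
  refine (((hfin.union (hfin.image fun v => (-v.1, -v.2.1, v.2.2))).union
    (hfin.image fun v => (-v.1, v.2.1, -v.2.2))).union
    (hfin.image fun v => (v.1, -v.2.1, -v.2.2))).subset ?_
  rintro ⟨x, y, z⟩ (h | h | h | h)
  · exact Or.inl (Or.inl (Or.inl h))
  · exact Or.inl (Or.inl (Or.inr ⟨_, h, by simp⟩))
  · exact Or.inl (Or.inr ⟨_, h, by simp⟩)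
  · exact Or.inr ⟨_, h, by simp⟩

private theorem h_angle_step {x y z z' : ℝ} (hy : y < 2) (hz : z' < 2) (hzz : z + z' = x * y)
    (hκ : 4 < x ^ 2 + y ^ 2 + z ^ 2 - x * y * z) (hs : 0 < x + y) (h2 : z < z') (hxy : x ≤ y) :
    0 < y + z' ∧ 2 * x < y * z' ∧ z < x := by
  have hy0 : 0 < y := by linarith
  have hx2 : x ^ 2 ≤ y ^ 2 := by nlinarith
  have hy2 : y ^ 2 ≤ y + 2 := by nlinarith
  have hzz2 : z * z' = x ^ 2 + y ^ 2 - (x ^ 2 + y ^ 2 + z ^ 2 - x * y * z) := by
    have : z' = x * y - z := by linarith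
    rw [this]
    ring
  generalize hk : x ^ 2 + y ^ 2 + z ^ 2 - x * y * z = k at *
  -- step A
  have hA : (x - z) * (x - z') < 0 := by
    have e : (x - z) * (x - z') = (2 - y) * (x ^ 2 - y - 2) + (4 - k) := by
      have e1 : (x - z) * (x - z') = x ^ 2 - (z + z') * x + z * z' := by ring
      rw [e1, hzz, hzz2]
      ring
    have h1 : (2 - y) * (x ^ 2 - y - 2) ≤ 0 := by nlinarith
    linarith
  have hxz : z < x := by
    by_contra h
    have h3 : 0 ≤ z - x := by linarith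
    have h4 : 0 ≤ z' - x := by linarith
    nlinarith [mul_nonneg h3 h4]
  have hxz' : x < z' := by
    by_contra h
    have h3 : 0 ≤ x - z' := by linarith
    have h4 : 0 ≤ x - z := by linarith
    nlinarith [mul_nonneg h3 h4]
  refine ⟨by linarith, ?_, hxz⟩
  -- step B
  have hB : x < y := by
    rcases lt_or_eq_of_le hxy with h | h
    · exact h
    · exfalso
      have e : (2 - z) * (2 - z') = (x - y) ^ 2 + (4 - k) := by
        have e1 : (2 - z) * (2 - z') = 4 - 2 * (z + z') + z * z' := by ring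
        rw [e1, hzz, hzz2]
        ring
      have h5 : (x - y) ^ 2 = 0 := by rw [h]; ring
      have h6 : 0 < (2 - z) * (2 - z') := mul_pos (by linarith) (by linarith)
      linarith
  -- step C
  have hxx : x * (y * z' - x) = y ^ 2 + z' ^ 2 - k := by
    have : z = x * y - z' := by linarith
    rw [← hk, this]
    ring
  by_contra hcon
  push Not at hcon
  rcases le_or_gt y z' with h | h
  · have e : (y - x) * (y - (y * z' - x)) = (2 - z') * (y ^ 2 - z' - 2) + (4 - k) := by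
      have e1 : (y - x) * (y - (y * z' - x)) = y ^ 2 - y * (y * z') + x * (y * z' - x) := by ring
      rw [e1, hxx]
      ring
    have h1 : (2 - z') * (y ^ 2 - z' - 2) ≤ 0 := by nlinarith
    have h3 : 0 ≤ y - (y * z' - x) := by linarith
    have h4 : 0 ≤ (y - x) * (y - (y * z' - x)) := mul_nonneg (by linarith) h3
    linarith
  · have e : (z' - x) * (z' - (y * z' - x)) = (2 - y) * (z' ^ 2 - y - 2) + (4 - k) := by
      have e1 : (z' - x) * (z' - (y * z' - x)) = z' ^ 2 - z' * (y * z') + x * (y * z' - x) := by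
        ring
      rw [e1, hxx]
      ring
    have hz2 : z' ^ 2 ≤ y ^ 2 := by nlinarith
    have h1 : (2 - y) * (z' ^ 2 - y - 2) ≤ 0 := by nlinarith
    have h3 : 0 ≤ z' - (y * z' - x) := by linarith
    have h4 : 0 ≤ (z' - x) * (z' - (y * z' - x)) := mul_nonneg (by linarith) h3
    linarith

theorem angle (O : Set (ℝ × ℝ × ℝ)) (hfin : O.Finite) (hO : Inv O)
    (hc : ∀ x y z, (x, y, z) ∈ O → |x| < 2) (x y z : ℝ) (h : (x, y, z) ∈ O) :
    x ^ 2 + y ^ 2 + z ^ 2 - x * y * z ≤ 4 := by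
  by_contra hcon
  push Not at hcon
  set O' := h_angle_ext O with hO'
  have hI := h_angle_inv hO
  have hF := h_angle_fin hfin
  rw [← hO'] at hI hF
  have hc1 : ∀ x y z, (x, y, z) ∈ O' → |x| < 2 := by
    rintro x y z (h | h | h | h)
    · exact hc _ _ _ h
    · have := hc _ _ _ h
      simpa using this
    · have := hc _ _ _ h
      simpa using this
    · exact hc _ _ _ h
  have hc2 : ∀ x y z, (x, y, z) ∈ O' → |y| < 2 := fun x y z h => hc1 _ _ _ (hI.swap12 _ _ _ h)
  have hc3 : ∀ x y z, (x, y, z) ∈ O' → |z| < 2 := fun x y z h => hc2 _ _ _ (hI.swap23 _ _ _ h)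
  -- the good points
  set G : Set (ℝ × ℝ × ℝ) := {v | v ∈ O' ∧ 4 < v.1 ^ 2 + v.2.1 ^ 2 + v.2.2 ^ 2 - v.1 * v.2.1 * v.2.2 ∧
    0 < v.1 + v.2.1 ∧ v.2.2 < v.1 * v.2.1 - v.2.2} with hG
  have hGfin : G.Finite := hF.subset fun v hv => hv.1
  have hGne : G.Nonempty := by
    -- first: a point with `z < x y - z`
    obtain ⟨z₁, hz₁, hk₁, hl₁⟩ : ∃ z₁, (x, y, z₁) ∈ O ∧ 4 < x ^ 2 + y ^ 2 + z₁ ^ 2 - x * y * z₁ ∧
        z₁ < x * y - z₁ := by
      rcases lt_trichotomy z (x * y - z) with h1 | h1 | h1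
      · exact ⟨z, h, hcon, h1⟩
      · exfalso
        have hx := abs_lt.1 (hc _ _ _ h)
        have hy := abs_lt.1 (hc _ _ _ (hO.swap12 _ _ _ h))
        have hx4 : 0 < 4 - x ^ 2 := by nlinarith
        have hy4 : 0 < 4 - y ^ 2 := by nlinarith
        have h3 : x * y = 2 * z := by linarith
        nlinarith [mul_pos hx4 hy4, mul_self_nonneg (x * y)]
      · refine ⟨x * y - z, hO.vieta _ _ _ h, ?_, by linarith⟩
        have e : x ^ 2 + y ^ 2 + (x * y - z) ^ 2 - x * y * (x * y - z) =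
          x ^ 2 + y ^ 2 + z ^ 2 - x * y * z := by ring
        rw [e]
        exact hcon
    rcases lt_trichotomy 0 (x + y) with h1 | h1 | h1
    · exact ⟨(x, y, z₁), Or.inl hz₁, hk₁, h1, hl₁⟩
    · exfalso
      have hz2 := abs_lt.1 (hc _ _ _ (hO.swap12 _ _ _ (hO.swap23 _ _ _ hz₁)))
      have hz3 := abs_lt.1 (hc _ _ _ (hO.swap12 _ _ _ (hO.swap23 _ _ _ (hO.vieta _ _ _ hz₁))))
      have hyx : y = -x := by linarith
      subst hyx
      have h6 : 0 < (2 + z₁) * (2 + (x * -x - z₁)) := mul_pos (by linarith) (by linarith)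
      nlinarith
    · refine ⟨(-x, -y, z₁), Or.inr (Or.inl (by simpa using hz₁)), ?_, ?_, ?_⟩
      · show 4 < (-x) ^ 2 + (-y) ^ 2 + z₁ ^ 2 - -x * -y * z₁
        have e : (-x) ^ 2 + (-y) ^ 2 + z₁ ^ 2 - -x * -y * z₁ =
          x ^ 2 + y ^ 2 + z₁ ^ 2 - x * y * z₁ := by ring
        rw [e]
        exact hk₁
      · show 0 < -x + -y
        linarith
      · show z₁ < -x * -y - z₁
        linarith
  obtain ⟨⟨a, b, c⟩, hv, hmax⟩ := Set.exists_max_image G (fun v => v.2.2) hGfin hGne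
  -- descent
  have key : ∀ a b c : ℝ, (a, b, c) ∈ G → (∀ w ∈ G, w.2.2 ≤ c) → a ≤ b → False := by
    rintro a b c ⟨h1, h2, h3, h4⟩ hm hab
    simp only at h2 h3 h4
    have hb := (abs_lt.1 (hc2 _ _ _ h1)).2
    have hvi := hI.vieta _ _ _ h1
    have hc' := (abs_lt.1 (hc3 _ _ _ hvi)).2
    obtain ⟨k1, k2, k3⟩ := h_angle_step hb hc' (by ring) h2 h3 h4 hab
    have hnew : (b, a * b - c, a) ∈ G := by
      refine ⟨hI.swap23 _ _ _ (hI.swap12 _ _ _ hvi), ?_, k1, ?_⟩
      · show 4 < b ^ 2 + (a * b - c) ^ 2 + a ^ 2 - b * (a * b - c) * a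
        have e : b ^ 2 + (a * b - c) ^ 2 + a ^ 2 - b * (a * b - c) * a =
          a ^ 2 + b ^ 2 + c ^ 2 - a * b * c := by ring
        rw [e]
        exact h2
      · show a < b * (a * b - c) - a
        linarith
    have := hm _ hnew
    simp only at this
    linarith
  rcases le_total a b with hab | hab
  · exact key a b c hv hmax hab
  · refine key b a c ?_ hmax hab
    obtain ⟨h1, h2, h3, h4⟩ := hv
    simp only at h2 h3 h4
    refine ⟨hI.swap12 _ _ _ h1, ?_, ?_, ?_⟩
    · show 4 < b ^ 2 + a ^ 2 + c ^ 2 - b * a * c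
      have e : b ^ 2 + a ^ 2 + c ^ 2 - b * a * c = a ^ 2 + b ^ 2 + c ^ 2 - a * b * c := by ring
      rw [e]
      exact h2
    · show 0 < b + a
      linarith
    · show c < b * a - c
      linarith

end MW
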