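import Pool.Agent.Lib.MP_a542cf_al.Defs

/-! MW2-BadPrimes: the few primes for which a relation between small roots of unity does not
lift. -/

namespace MW

/-- relations `xy = z + z'` between sums `u + 1/u` of roots of unity of order `≤ T` lift from `K`
to `S` -/
def RelLift (T : ℕ) {K : Type} [Field K] (S : Subring ℂ) (φ : S →+* K) : Prop :=
  ∀ (a b c d : Sˣ) (na nb nc nd : ℕ), 0 < na → na ≤ T → a ^ na = 1 → 0 < nb → nb ≤ T →
    b ^ nb = 1 → 0 < nc → nc ≤ T → c ^ nc = 1 → 0 < nd → nd ≤ T → d ^ nd = 1 →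
    φ (((a : S) + ((a⁻¹ : Sˣ) : S)) * ((b : S) + ((b⁻¹ : Sˣ) : S)) -
      ((c : S) + ((c⁻¹ : Sˣ) : S)) - ((d : S) + ((d⁻¹ : Sˣ) : S))) = 0 →
    ((a : S) + ((a⁻¹ : Sˣ) : S)) * ((b : S) + ((b⁻¹ : Sˣ) : S)) -
      ((c : S) + ((c⁻¹ : Sˣ) : S)) - ((d : S) + ((d⁻¹ : Sˣ) : S)) = 0

/-- the algebraic number of a quadruple -/
noncomputable def h_badprimes_delta {K : Type*} [Field K] (q : K × K × K × K) : K :=
  (q.1 + q.1⁻¹) * (q.2.1 + q.2.1⁻¹) - (q.2.2.1 + q.2.2.1⁻¹) - (q.2.2.2 + q.2.2.2⁻¹)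

theorem h_badprimes_map {K L : Type*} [Field K] [Field L] (f : K →+* L) (q : K × K × K × K) :
    f (h_badprimes_delta q) = h_badprimes_delta (f q.1, f q.2.1, f q.2.2.1, f q.2.2.2) := by
  simp [h_badprimes_delta]

theorem h_badprimes_norm_one {a : ℂ} {n : ℕ} (hn : 0 < n) (h : a ^ n = 1) : ‖a‖ = 1 := by
  have h1 : ‖a‖ ^ n = 1 := by rw [← norm_pow, h, norm_one]
  exact (pow_eq_one_iff_of_nonneg (norm_nonneg a) hn.ne').mp h1

theorem h_badprimes_add_inv {a : ℂ} (h : ‖a‖ = 1) : ‖a + a⁻¹‖ ≤ 2 := by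
  refine (norm_add_le _ _).trans ?_
  rw [norm_inv, h]
  norm_num

theorem h_badprimes_norm {q : ℂ × ℂ × ℂ × ℂ} (h1 : ‖q.1‖ = 1) (h2 : ‖q.2.1‖ = 1)
    (h3 : ‖q.2.2.1‖ = 1) (h4 : ‖q.2.2.2‖ = 1) : ‖h_badprimes_delta q‖ ≤ 8 := by
  unfold h_badprimes_delta
  have e1 := h_badprimes_add_inv h1
  have e2 := h_badprimes_add_inv h2
  have e3 := h_badprimes_add_inv h3
  have e4 := h_badprimes_add_inv h4
  have e5 : ‖(q.1 + q.1⁻¹) * (q.2.1 + q.2.1⁻¹)‖ ≤ 2 * 2 := by
    rw [norm_mul]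
    exact mul_le_mul e1 e2 (norm_nonneg _) (by norm_num)
  have e6 := norm_sub_le ((q.1 + q.1⁻¹) * (q.2.1 + q.2.1⁻¹) - (q.2.2.1 + q.2.2.1⁻¹))
    (q.2.2.2 + q.2.2.2⁻¹)
  have e7 := norm_sub_le ((q.1 + q.1⁻¹) * (q.2.1 + q.2.1⁻¹)) (q.2.2.1 + q.2.2.1⁻¹)
  linarith

theorem h_badprimes_int1 {a : ℂ} {n : ℕ} (hn : 0 < n) (h : a ^ n = 1) : IsIntegral ℤ (a + a⁻¹) := by
  have h1 : IsIntegral ℤ a := by
    refine IsIntegral.of_pow hn ?_
    rw [h]
    exact isIntegral_one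
  have h2 : IsIntegral ℤ a⁻¹ := by
    refine IsIntegral.of_pow hn ?_
    rw [inv_pow, h, inv_one]
    exact isIntegral_one
  exact h1.add h2

/-- the degree and the constant coefficient of the minimal polynomial -/
theorem h_badprimes_coeff {q : ℂ × ℂ × ℂ × ℂ} {m : ℕ} (hm : 0 < m) (h1 : q.1 ^ m = 1)
    (h2 : q.2.1 ^ m = 1) (h3 : q.2.2.1 ^ m = 1) (h4 : q.2.2.2 ^ m = 1) :
    IsIntegral ℤ (h_badprimes_delta q) ∧
      ((minpoly ℤ (h_badprimes_delta q)).coeff 0).natAbs ≤ 8 ^ m := by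
  have hint : IsIntegral ℤ (h_badprimes_delta q) := by
    unfold h_badprimes_delta
    exact (((h_badprimes_int1 hm h1).mul (h_badprimes_int1 hm h2)).sub
      (h_badprimes_int1 hm h3)).sub (h_badprimes_int1 hm h4)
  refine ⟨hint, ?_⟩
  set ζ : ℂ := Complex.exp (2 * Real.pi * Complex.I / m) with hζ
  have hprim : IsPrimitiveRoot ζ m := Complex.isPrimitiveRoot_exp m hm.ne'
  have hζi : IsIntegral ℚ ζ := by
    refine IsIntegral.of_pow hm ?_
    rw [hprim.pow_eq_one]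
    exact isIntegral_one
  set K := IntermediateField.adjoin ℚ {ζ} with hK
  have hfd : FiniteDimensional ℚ K := IntermediateField.adjoin.finiteDimensional hζi
  have hnf : NumberField K := ⟨⟩
  have hfr : Module.finrank ℚ K ≤ m := by
    rw [hK, IntermediateField.adjoin.finrank hζi]
    have h5 : minpoly ℚ ζ ∣ (Polynomial.X ^ m - 1 : Polynomial ℚ) := by
      refine minpoly.dvd ℚ ζ ?_
      simp [hprim.pow_eq_one]
    have h6 : (Polynomial.X ^ m - 1 : Polynomial ℚ) ≠ 0 := by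
      rw [show (Polynomial.X ^ m - 1 : Polynomial ℚ) = Polynomial.X ^ m - Polynomial.C 1 by simp]
      exact Polynomial.X_pow_sub_C_ne_zero hm 1
    refine (Polynomial.natDegree_le_of_dvd h5 h6).trans ?_
    rw [show (Polynomial.X ^ m - 1 : Polynomial ℚ) = Polynomial.X ^ m - Polynomial.C 1 by simp,
      Polynomial.natDegree_X_pow_sub_C]
  have hmem : ∀ x : ℂ, x ^ m = 1 → ∃ y : K, algebraMap K ℂ y = x ∧ y ^ m = 1 := by
    intro x hx
    have : NeZero m := ⟨hm.ne'⟩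
    obtain ⟨i, -, hi⟩ := hprim.eq_pow_of_pow_eq_one hx
    have h7 : x ∈ K := by
      rw [← hi]
      exact pow_mem (IntermediateField.subset_adjoin ℚ {ζ} rfl) i
    refine ⟨⟨x, h7⟩, rfl, ?_⟩
    apply (algebraMap K ℂ).injective
    rw [map_pow, map_one]
    exact hx
  obtain ⟨a, ha, ha1⟩ := hmem q.1 h1
  obtain ⟨b, hb, hb1⟩ := hmem q.2.1 h2
  obtain ⟨c, hc, hc1⟩ := hmem q.2.2.1 h3
  obtain ⟨d, hd, hd1⟩ := hmem q.2.2.2 h4
  have hδ : algebraMap K ℂ (h_badprimes_delta (a, b, c, d)) = h_badprimes_delta q := by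
    rw [h_badprimes_map]
    simp only [ha, hb, hc, hd]
  set δ : K := h_badprimes_delta (a, b, c, d) with hδ'
  have hmin : minpoly ℚ (h_badprimes_delta q) = minpoly ℚ δ := by
    rw [← hδ]
    exact minpoly.algebraMap_eq (algebraMap K ℂ).injective δ
  have hroots : ∀ z ∈ ((minpoly ℚ δ).map (algebraMap ℚ ℂ)).roots, ‖z‖ ≤ 8 := by
    intro z hz
    have hne : minpoly ℚ δ ≠ 0 := minpoly.ne_zero (Algebra.IsIntegral.isIntegral δ)
    have hz1 : z ∈ (minpoly ℚ δ).rootSet ℂ := by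
      rw [Polynomial.mem_rootSet]
      refine ⟨hne, ?_⟩
      have := (Polynomial.mem_roots (Polynomial.map_ne_zero hne)).mp hz
      rw [Polynomial.IsRoot.def, Polynomial.eval_map] at this
      exact this
    rw [← NumberField.Embeddings.range_eval_eq_rootSet_minpoly K ℂ δ] at hz1
    obtain ⟨φ, hφ⟩ := hz1
    change φ δ = z at hφ
    rw [← hφ, hδ', h_badprimes_map]
    have hn : ∀ y : K, y ^ m = 1 → ‖φ y‖ = 1 := fun y hy =>
      h_badprimes_norm_one hm (by rw [← map_pow, hy, map_one])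
    exact h_badprimes_norm (hn a ha1) (hn b hb1) (hn c hc1) (hn d hd1)
  have hcoef := Polynomial.coeff_le_of_roots_le (p := minpoly ℚ δ) (f := algebraMap ℚ ℂ) (B := 8) 0
    (minpoly.monic (Algebra.IsIntegral.isIntegral δ)) (IsAlgClosed.splits _) hroots
  rw [Nat.choose_zero_right, Nat.cast_one, mul_one, Nat.sub_zero] at hcoef
  have hdeg : (minpoly ℚ δ).natDegree ≤ m := (minpoly.natDegree_le δ).trans hfr
  have hZ : minpoly ℚ (h_badprimes_delta q) =
      (minpoly ℤ (h_badprimes_delta q)).map (algebraMap ℤ ℚ) :=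
    minpoly.isIntegrallyClosed_eq_field_fractions' ℚ hint
  rw [← hmin, hZ, Polynomial.map_map, Polynomial.coeff_map] at hcoef
  have hcast : ((algebraMap ℚ ℂ).comp (algebraMap ℤ ℚ))
      ((minpoly ℤ (h_badprimes_delta q)).coeff 0) =
      (((minpoly ℤ (h_badprimes_delta q)).coeff 0 : ℤ) : ℂ) := by
    simp
  rw [hcast] at hcoef
  rw [← hZ, hmin] at hcoef
  have hfin : ‖(((minpoly ℤ (h_badprimes_delta q)).coeff 0 : ℤ) : ℂ)‖ ≤ 8 ^ m :=
    hcoef.trans (pow_le_pow_right₀ (by norm_num) hdeg)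
  have hna : ‖(((minpoly ℤ (h_badprimes_delta q)).coeff 0 : ℤ) : ℂ)‖ =
      ((((minpoly ℤ (h_badprimes_delta q)).coeff 0).natAbs : ℕ) : ℝ) := by
    rw [Complex.norm_intCast, Nat.cast_natAbs, Int.cast_abs]
  rw [hna] at hfin
  exact_mod_cast hfin

theorem h_badprimes_card (N M : ℕ) (hN : N ≤ 2 ^ M) : N.primeFactors.card ≤ M := by
  rcases Nat.eq_zero_or_pos N with h | h
  · subst h; simp
  have h1 : 2 ^ N.primeFactors.card ≤ N := by
    calc 2 ^ N.primeFactors.card ≤ ∏ p ∈ N.primeFactors, p :=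
          Finset.pow_card_le_prod _ _ _ fun p hp => (Nat.prime_of_mem_primeFactors hp).two_le
      _ ≤ N := Nat.le_of_dvd h (Nat.prod_primeFactors_dvd N)
  exact (Nat.pow_le_pow_iff_right (by norm_num)).mp (h1.trans hN)

open Classical in
/-- the roots of unity of order at most `T` -/
noncomputable def h_badprimes_R (T : ℕ) : Finset ℂ :=
  (Finset.Icc 1 T).biUnion fun n => Polynomial.nthRootsFinset n (1 : ℂ)

theorem h_badprimes_R_card (T : ℕ) : (h_badprimes_R T).card ≤ T ^ 2 := by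
  classical
  unfold h_badprimes_R
  refine Finset.card_biUnion_le.trans ?_
  calc ∑ n ∈ Finset.Icc 1 T, (Polynomial.nthRootsFinset n (1 : ℂ)).card
      ≤ ∑ n ∈ Finset.Icc 1 T, T := by
        refine Finset.sum_le_sum fun n hn => ?_
        have hn1 := Finset.mem_Icc.mp hn
        rw [(Complex.isPrimitiveRoot_exp n (by omega)).card_nthRootsFinset]
        exact hn1.2
    _ = T ^ 2 := by
        rw [Finset.sum_const, Nat.card_Icc, smul_eq_mul]
        simp [pow_two]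

theorem h_badprimes_mem_R {T n : ℕ} (hn : 0 < n) (hnT : n ≤ T) {a : ℂ} (h : a ^ n = 1) :
    a ∈ h_badprimes_R T := by
  classical
  unfold h_badprimes_R
  exact Finset.mem_biUnion.mpr ⟨n, Finset.mem_Icc.mpr ⟨hn, hnT⟩,
    (Polynomial.mem_nthRootsFinset hn (1 : ℂ)).mpr h⟩

theorem h_badprimes_of_mem_R {T : ℕ} {a : ℂ} (h : a ∈ h_badprimes_R T) :
    ∃ n, 0 < n ∧ n ≤ T ∧ a ^ n = 1 := by
  classical
  unfold h_badprimes_R at h
  obtain ⟨n, hn, ha⟩ := Finset.mem_biUnion.mp h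
  have hn1 := Finset.mem_Icc.mp hn
  exact ⟨n, hn1.1, hn1.2, (Polynomial.mem_nthRootsFinset hn1.1 (1 : ℂ)).mp ha⟩

theorem h_badprimes_pow {a : ℂ} {n m : ℕ} (h : a ^ n = 1) (hd : n ∣ m) : a ^ m = 1 := by
  obtain ⟨k, rfl⟩ := hd
  rw [pow_mul, h, one_pow]

theorem badPrimes (T : ℕ) : ∃ B : Finset ℕ, B.card ≤ 3 * T ^ 12 ∧
    ∀ (p : ℕ) [Fact p.Prime], p ∉ B → ∀ (K : Type) [Field K] [CharP K p] (S : Subring ℂ)
      (φ : S →+* K), RelLift T S φ := by
  classical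
  set R := h_badprimes_R T with hR
  refine ⟨(R ×ˢ (R ×ˢ (R ×ˢ R))).biUnion fun q =>
    ((minpoly ℤ (h_badprimes_delta q)).coeff 0).natAbs.primeFactors, ?_, ?_⟩
  · have h1 : ∀ q ∈ R ×ˢ (R ×ˢ (R ×ˢ R)),
        ((minpoly ℤ (h_badprimes_delta q)).coeff 0).natAbs.primeFactors.card ≤ 3 * T ^ 4 := by
      rintro ⟨a, b, c, d⟩ hq
      simp only [Finset.mem_product] at hq
      obtain ⟨ha, hb, hc, hd⟩ := hq
      obtain ⟨na, hna, hna', ha'⟩ := h_badprimes_of_mem_R ha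
      obtain ⟨nb, hnb, hnb', hb'⟩ := h_badprimes_of_mem_R hb
      obtain ⟨nc, hnc, hnc', hc'⟩ := h_badprimes_of_mem_R hc
      obtain ⟨nd, hnd, hnd', hd'⟩ := h_badprimes_of_mem_R hd
      have hm : 0 < na * nb * nc * nd := by positivity
      have h2 := (h_badprimes_coeff (q := (a, b, c, d)) hm
        (h_badprimes_pow ha' ⟨nb * nc * nd, by ring⟩)
        (h_badprimes_pow hb' ⟨na * nc * nd, by ring⟩)
        (h_badprimes_pow hc' ⟨na * nb * nd, by ring⟩)
        (h_badprimes_pow hd' ⟨na * nb * nc, by ring⟩)).2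
      refine h_badprimes_card _ _ (h2.trans ?_)
      have h3 : na * nb * nc * nd ≤ T ^ 4 := by
        calc na * nb * nc * nd ≤ T * T * T * T := by gcongr
          _ = T ^ 4 := by ring
      calc 8 ^ (na * nb * nc * nd) ≤ 8 ^ (T ^ 4) := Nat.pow_le_pow_right (by norm_num) h3
        _ = 2 ^ (3 * T ^ 4) := by
          rw [pow_mul]
          norm_num
    refine Finset.card_biUnion_le.trans ((Finset.sum_le_sum h1).trans ?_)
    rw [Finset.sum_const, smul_eq_mul, Finset.card_product, Finset.card_product,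
      Finset.card_product]
    have h4 : R.card ≤ T ^ 2 := h_badprimes_R_card T
    calc R.card * (R.card * (R.card * R.card)) * (3 * T ^ 4)
        ≤ T ^ 2 * (T ^ 2 * (T ^ 2 * T ^ 2)) * (3 * T ^ 4) := by gcongr
      _ = 3 * T ^ 12 := by ring
  · intro p hp hpB K _ _ S φ a b c d na nb nc nd hna hna' ha hnb hnb' hb hnc hnc' hc hnd hnd' hd h
    by_contra hne
    apply hpB
    have cinv : ∀ x : Sˣ, (((x⁻¹ : Sˣ) : S) : ℂ) = ((x : S) : ℂ)⁻¹ := by
      intro x
      have h5 : ((x : S) : ℂ) * (((x⁻¹ : Sˣ) : S) : ℂ) = 1 := by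
        rw [← Subring.coe_mul, Units.mul_inv, Subring.coe_one]
      exact (eq_inv_of_mul_eq_one_right h5)
    have cpow : ∀ (x : Sˣ) (n : ℕ), x ^ n = 1 → ((x : S) : ℂ) ^ n = 1 := by
      intro x n hx
      rw [← Subring.coe_pow, ← Units.val_pow_eq_pow_val, hx, Units.val_one, Subring.coe_one]
    set q : ℂ × ℂ × ℂ × ℂ := (((a : S) : ℂ), ((b : S) : ℂ), ((c : S) : ℂ), ((d : S) : ℂ)) with hq
    set δ : S := ((a : S) + ((a⁻¹ : Sˣ) : S)) * ((b : S) + ((b⁻¹ : Sˣ) : S)) -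
      ((c : S) + ((c⁻¹ : Sˣ) : S)) - ((d : S) + ((d⁻¹ : Sˣ) : S)) with hδ
    have hδq : (δ : ℂ) = h_badprimes_delta q := by
      rw [hδ, hq]
      simp only [h_badprimes_delta, AddSubgroupClass.coe_sub, Subring.coe_mul, Subring.coe_add, cinv]
    have hm : 0 < na * nb * nc * nd := by positivity
    have hco := h_badprimes_coeff (q := q) hm
      (h_badprimes_pow (cpow a na ha) ⟨nb * nc * nd, by ring⟩)
      (h_badprimes_pow (cpow b nb hb) ⟨na * nc * nd, by ring⟩)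
      (h_badprimes_pow (cpow c nc hc) ⟨na * nb * nd, by ring⟩)
      (h_badprimes_pow (cpow d nd hd) ⟨na * nb * nc, by ring⟩)
    have hδ0 : h_badprimes_delta q ≠ 0 := by
      rw [← hδq]
      intro h0
      exact hne (Subtype.ext h0)
    have hc0 : (minpoly ℤ (h_badprimes_delta q)).coeff 0 ≠ 0 := by
      intro h0
      have h9 : (minpoly ℚ (h_badprimes_delta q)).coeff 0 ≠ 0 :=
        minpoly.coeff_zero_ne_zero hco.1.tower_top hδ0
      apply h9
      rw [minpoly.isIntegrallyClosed_eq_field_fractions' ℚ hco.1, Polynomial.coeff_map, h0, map_zero]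
    -- reduce modulo the kernel of φ
    have hS : Polynomial.aeval δ (minpoly ℤ (h_badprimes_delta q)) = 0 := by
      apply Subtype.ext
      have h6 := minpoly.aeval ℤ (h_badprimes_delta q)
      rw [← hδq] at h6 ⊢
      have h7 : S.subtype (Polynomial.aeval δ (minpoly ℤ (δ : ℂ))) =
          Polynomial.aeval (δ : ℂ) (minpoly ℤ (δ : ℂ)) := by
        rw [Polynomial.aeval_def, Polynomial.aeval_def, Polynomial.hom_eval₂]
        congr 1
      rw [h6] at h7
      exact h7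
    have hK : ((((minpoly ℤ (h_badprimes_delta q)).coeff 0 : ℤ)) : K) = 0 := by
      have h8 := congrArg φ hS
      rw [map_zero, Polynomial.aeval_def, Polynomial.hom_eval₂, h, Polynomial.eval₂_at_zero] at h8
      simpa using h8
    have hdvd : (p : ℤ) ∣ (minpoly ℤ (h_badprimes_delta q)).coeff 0 :=
      (CharP.intCast_eq_zero_iff K p _).mp hK
    refine Finset.mem_biUnion.mpr ⟨q, ?_, ?_⟩
    · simp only [Finset.mem_product, hq]
      exact ⟨h_badprimes_mem_R hna hna' (cpow a na ha), h_badprimes_mem_R hnb hnb' (cpow b nb hb),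
        h_badprimes_mem_R hnc hnc' (cpow c nc hc), h_badprimes_mem_R hnd hnd' (cpow d nd hd)⟩
    · rw [Nat.mem_primeFactors]
      exact ⟨hp.out, Int.natCast_dvd.mp hdvd, Int.natAbs_ne_zero.mpr hc0⟩

end MW
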