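import Pool.Agent.Lib.MP_a542cf_al.Ord
import Pool.Agent.Lib.MP_a542cf_al.H.BadPrimes
import Pool.Agent.Lib.MP_a542cf_al.H.Angle

/-! MW2-LiftOrbit: lifting an invariant set with small orders to characteristic zero. -/

namespace MW

/-- `u + 1/u` is real and of absolute value `< 2` for a root of unity of order at least `3` -/
private theorem h_liftorbit_real (u : ℂˣ) (s : ℕ) (hs : 3 ≤ s) (hu : orderOf u = s) :
    (u : ℂ) + ((u⁻¹ : ℂˣ) : ℂ) = ((2 * (u : ℂ).re : ℝ) : ℂ) ∧ |2 * (u : ℂ).re| < 2 := by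
  have h1 : (u : ℂ) ^ s = 1 := by
    rw [← Units.val_pow_eq_pow_val, ← hu, pow_orderOf_eq_one, Units.val_one]
  have hn : ‖(u : ℂ)‖ = 1 := Complex.norm_eq_one_of_pow_eq_one h1 (by omega)
  have hns : (u : ℂ).re ^ 2 + (u : ℂ).im ^ 2 = 1 := by
    have h2 := Complex.sq_norm (u : ℂ)
    rw [hn, Complex.normSq_apply] at h2
    linarith
  have hinv : ((u⁻¹ : ℂˣ) : ℂ) = (starRingEnd ℂ) (u : ℂ) := by
    rw [Units.val_inv_eq_inv_val, Complex.inv_def, Complex.normSq_eq_norm_sq, hn]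
    simp
  refine ⟨?_, ?_⟩
  · rw [hinv, Complex.add_conj]
  · rw [abs_lt]
    have him : (u : ℂ).im ≠ 0 := by
      intro h
      have h2 : (u : ℂ) ^ 2 = 1 := by
        apply Complex.ext
        · rw [sq, Complex.mul_re, Complex.one_re]
          nlinarith
        · rw [sq, Complex.mul_im, Complex.one_im, h]
          ring
      have h3 : u ^ 2 = 1 := by
        ext
        rw [Units.val_pow_eq_pow_val, h2, Units.val_one]
      have h4 := orderOf_le_of_pow_eq_one (by norm_num : 0 < 2) h3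
      omega
    have h5 : 0 < (u : ℂ).im ^ 2 := by positivity
    constructor <;> nlinarith

theorem liftOrbit (p : ℕ) [Fact p.Prime] (hp2 : p ≠ 2) (K : Type) [Field K] [Fintype K]
    [Algebra (ZMod p) K] (hK : Fintype.card K = p ^ 2) (κ : ZMod p) (hκ : κ ≠ 4)
    (O : Set (ZMod p × ZMod p × ZMod p)) (hO : Inv O) (hX : ∀ v ∈ O, OnX κ v) (T : ℕ)
    (hT : ∀ x y z, (x, y, z) ∈ O → x ^ 2 ≠ 4 ∧ ∀ s, HasOrd K x s → 3 ≤ s ∧ s ≤ T)
    (S : Subring ℂ) (φ : S →+* K) (θ : Kˣ →* Sˣ)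
    (hφ : ∀ w : Kˣ, φ ((θ w : Sˣ) : S) = (w : K)) (hrel : RelLift T S φ) (x y z : ZMod p)
    (hv : (x, y, z) ∈ O) :
    ∃ (a b c : Sˣ) (na nb nc : ℕ), 0 < na ∧ na ≤ T ∧ a ^ na = 1 ∧ 0 < nb ∧ nb ≤ T ∧
      b ^ nb = 1 ∧ 0 < nc ∧ nc ≤ T ∧ c ^ nc = 1 ∧
      φ ((a : S) + ((a⁻¹ : Sˣ) : S)) = algebraMap (ZMod p) K x ∧
      φ ((b : S) + ((b⁻¹ : Sˣ) : S)) = algebraMap (ZMod p) K y ∧
      φ ((c : S) + ((c⁻¹ : Sˣ) : S)) = algebraMap (ZMod p) K z ∧
      ∀ ψ : S →+* ℂ, Function.Injective ψ → ∃ r₁ r₂ r₃ : ℝ,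
        ψ ((a : S) + ((a⁻¹ : Sˣ) : S)) = (r₁ : ℂ) ∧ ψ ((b : S) + ((b⁻¹ : Sˣ) : S)) = (r₂ : ℂ) ∧
        ψ ((c : S) + ((c⁻¹ : Sˣ) : S)) = (r₃ : ℂ) ∧ |r₁| < 2 ∧
        r₁ ^ 2 + r₂ ^ 2 + r₃ ^ 2 - r₁ * r₂ * r₃ < 4 := by
  classical
  set al := algebraMap (ZMod p) K with hal
  have hinj : Function.Injective al := (algebraMap (ZMod p) K).injective
  -- the eigenvalues
  have hW : ∀ t : ZMod p, ∃ w : Kˣ, (w : K) + ((w⁻¹ : Kˣ) : K) = al t := by
    intro t
    obtain ⟨s, w, hw, hwt, _⟩ := hasOrd_exists p K hp2 hK t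
    refine ⟨Units.mk0 w hw, ?_⟩
    rw [Units.val_inv_eq_inv_val, Units.val_mk0]
    exact hwt
  choose W hW using hW
  have hWord : ∀ t : ZMod p, HasOrd K t (orderOf (W t)) := by
    intro t
    refine ⟨(W t : K), (W t).ne_zero, ?_, orderOf_units⟩
    rw [← Units.val_inv_eq_inv_val]
    exact hW t
  have hθ : Function.Injective θ := by
    intro u v huv
    ext
    rw [← hφ u, ← hφ v, huv]
  have hθord : ∀ t, orderOf (θ (W t)) = orderOf (W t) := fun t => orderOf_injective θ hθ (W t)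
  set L : ZMod p → S := fun t => ((θ (W t) : Sˣ) : S) + (((θ (W t))⁻¹ : Sˣ) : S) with hL
  have hφL : ∀ t, φ (L t) = al t := by
    intro t
    rw [hL]
    simp only
    rw [map_add, hφ, ← map_inv, hφ]
    exact hW t
  -- orders of the coordinates
  have ho1 : ∀ x y z, (x, y, z) ∈ O → 3 ≤ orderOf (W x) ∧ orderOf (W x) ≤ T := fun x y z h =>
    (hT x y z h).2 _ (hWord x)
  have ho2 : ∀ x y z, (x, y, z) ∈ O → 3 ≤ orderOf (W y) ∧ orderOf (W y) ≤ T := fun x y z h =>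
    ho1 _ _ _ (hO.swap12 _ _ _ h)
  have ho3 : ∀ x y z, (x, y, z) ∈ O → 3 ≤ orderOf (W z) ∧ orderOf (W z) ≤ T := fun x y z h =>
    ho2 _ _ _ (hO.swap23 _ _ _ h)
  have hpow : ∀ t, θ (W t) ^ orderOf (W t) = 1 := by
    intro t
    rw [← hθord, pow_orderOf_eq_one]
  -- the relations
  have hR : ∀ x y z, (x, y, z) ∈ O → L x * L y - L z - L (x * y - z) = 0 := by
    intro x y z h
    have hx := ho1 _ _ _ h
    have hy := ho2 _ _ _ h
    have hz := ho3 _ _ _ h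
    have hz' := ho3 _ _ _ (hO.vieta _ _ _ h)
    refine hrel (θ (W x)) (θ (W y)) (θ (W z)) (θ (W (x * y - z))) _ _ _ _ (by omega) hx.2
      (hpow x) (by omega) hy.2 (hpow y) (by omega) hz.2 (hpow z) (by omega) hz'.2
      (hpow (x * y - z)) ?_
    have e : φ (L x * L y - L z - L (x * y - z)) = 0 := by
      rw [map_sub, map_sub, map_mul, hφL, hφL, hφL, hφL, ← map_mul, ← map_sub, ← map_sub]
      rw [sub_self, map_zero]
    exact e
  have hx := ho1 _ _ _ hv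
  have hy := ho2 _ _ _ hv
  have hz := ho3 _ _ _ hv
  refine ⟨θ (W x), θ (W y), θ (W z), orderOf (W x), orderOf (W y), orderOf (W z), by omega, hx.2,
    hpow x, by omega, hy.2, hpow y, by omega, hz.2, hpow z, hφL x, hφL y, hφL z, ?_⟩
  intro ψ hψ
  -- real parts
  have hreal : ∀ t, 3 ≤ orderOf (W t) → ψ (L t) = (((ψ (L t)).re : ℝ) : ℂ) ∧ |(ψ (L t)).re| < 2 := by
    intro t ht
    have hinj2 : Function.Injective (Units.map (ψ : S →* ℂ)) := Units.map_injective hψ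
    have hord : orderOf (Units.map (ψ : S →* ℂ) (θ (W t))) = orderOf (W t) := by
      rw [orderOf_injective _ hinj2, hθord]
    obtain ⟨h1, h2⟩ := h_liftorbit_real _ _ ht hord
    have e : ψ (L t) = ((Units.map (ψ : S →* ℂ) (θ (W t)) : ℂˣ) : ℂ) +
        (((Units.map (ψ : S →* ℂ) (θ (W t)))⁻¹ : ℂˣ) : ℂ) := by
      rw [hL]
      simp only
      rw [map_add, Units.coe_map_inv]
      rfl
    rw [e, h1]
    refine ⟨?_, ?_⟩
    · rw [Complex.ofReal_re]
    · rw [Complex.ofReal_re]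
      exact h2
  set R : ZMod p → ℝ := fun t => (ψ (L t)).re with hRdef
  set F : ZMod p × ZMod p × ZMod p → ℝ × ℝ × ℝ := fun v => (R v.1, R v.2.1, R v.2.2) with hF
  have hvi : ∀ x y z, (x, y, z) ∈ O → R (x * y - z) = R x * R y - R z := by
    intro x y z h
    have h1 := congrArg ψ (hR x y z h)
    rw [map_sub, map_sub, map_mul, map_zero, (hreal x (ho1 _ _ _ h).1).1,
      (hreal y (ho2 _ _ _ h).1).1, (hreal z (ho3 _ _ _ h).1).1,
      (hreal (x * y - z) (ho3 _ _ _ (hO.vieta _ _ _ h)).1).1] at h1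
    have h2 : R x * R y - R z - R (x * y - z) = 0 := by
      exact_mod_cast h1
    linarith
  have hInv : Inv (F '' O) := by
    refine ⟨?_, ?_, ?_⟩
    · rintro _ _ _ ⟨⟨x, y, z⟩, h, he⟩
      rw [hF] at he
      simp only [Prod.mk.injEq] at he
      obtain ⟨rfl, rfl, rfl⟩ := he
      exact ⟨(y, x, z), hO.swap12 _ _ _ h, rfl⟩
    · rintro _ _ _ ⟨⟨x, y, z⟩, h, he⟩
      rw [hF] at he
      simp only [Prod.mk.injEq] at he
      obtain ⟨rfl, rfl, rfl⟩ := he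
      exact ⟨(x, z, y), hO.swap23 _ _ _ h, rfl⟩
    · rintro _ _ _ ⟨⟨x, y, z⟩, h, he⟩
      rw [hF] at he
      simp only [Prod.mk.injEq] at he
      obtain ⟨rfl, rfl, rfl⟩ := he
      refine ⟨(x, y, x * y - z), hO.vieta _ _ _ h, ?_⟩
      rw [hF]
      simp only [Prod.mk.injEq, true_and]
      exact hvi x y z h
  have hlt : ∀ x y z, (x, y, z) ∈ F '' O → |x| < 2 := by
    rintro _ _ _ ⟨⟨x, y, z⟩, h, he⟩
    rw [hF] at he
    simp only [Prod.mk.injEq] at he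
    obtain ⟨rfl, rfl, rfl⟩ := he
    exact (hreal x (ho1 _ _ _ h).1).2
  have hle := angle (F '' O) ((Set.toFinite O).image F) hInv hlt (R x) (R y) (R z)
    ⟨(x, y, z), hv, rfl⟩
  refine ⟨R x, R y, R z, (hreal x hx.1).1, (hreal y hy.1).1, (hreal z hz.1).1,
    (hreal x hx.1).2, lt_of_le_of_ne hle ?_⟩
  intro heq
  have h4 : ψ (L x ^ 2 + L y ^ 2 + L z ^ 2 - L x * L y * L z) = ψ 4 := by
    rw [map_sub, map_add, map_add, map_mul, map_mul, map_pow, map_pow, map_pow, map_ofNat,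
      (hreal x hx.1).1, (hreal y hy.1).1, (hreal z hz.1).1]
    exact_mod_cast heq
  have h5 := congrArg φ (hψ h4)
  rw [map_sub, map_add, map_add, map_mul, map_mul, map_pow, map_pow, map_pow, map_ofNat, hφL, hφL,
    hφL] at h5
  apply hκ
  apply hinj
  have h6 : x ^ 2 + y ^ 2 + z ^ 2 - x * y * z = κ := hX _ hv
  rw [← h6, map_sub, map_add, map_add, map_mul, map_mul, map_pow, map_pow, map_pow, map_ofNat]
  exact h5

end MW
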