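import Pool.Agent.Lib.MP_a542cf_al.FibRot

/-! MW2-OrdBound: if all regular coordinates of an invariant set have small order, then all
coordinates are different from `2`, `-2` and have small order. -/

namespace MW

/-- rotation by the parabolic element: the second coordinate moves by `2es` -/
private theorem h_ordbound_par {F : Type*} [Field F] (O : Set (F × F × F)) (hO : Inv O)
    (x y z e : F) (hx : x = 2 * e) (he : e * e = 1) (hv : (x, y, z) ∈ O) (n : ℕ) :
    (x, y + n * (2 * e * (z - e * y)), z + n * (2 * (z - e * y))) ∈ O := by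
  induction n with
  | zero => simpa using hv
  | succ n ih =>
    have h1 := hO.vieta _ _ _ (hO.swap23 _ _ _ (hO.vieta _ _ _ (hO.swap23 _ _ _ ih)))
    set s := z - e * y with hs
    have e1 : x * (z + n * (2 * s)) - (y + n * (2 * e * s)) =
        y + ((n + 1 : ℕ) : F) * (2 * e * s) := by
      rw [hx, hs]
      push_cast
      linear_combination (2 * y * (1 : F)) * he
    have e2 : x * (x * (z + n * (2 * s)) - (y + n * (2 * e * s))) - (z + n * (2 * s)) =
        z + ((n + 1 : ℕ) : F) * (2 * s) := by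
      rw [e1, hx, hs]
      push_cast
      linear_combination (4 * ((n : F) + 1) * (z - e * y)) * he
    rw [e2, e1] at h1
    exact h1

/-- `x` is not `2` or `-2` -/
private theorem h_ordbound_four (p : ℕ) [Fact p.Prime] (hp2 : p ≠ 2) (K : Type) [Field K]
    [Algebra (ZMod p) K] (κ : ZMod p) (hκ : κ ≠ 4)
    (O : Set (ZMod p × ZMod p × ZMod p)) (hO : Inv O) (hX : ∀ v ∈ O, OnX κ v)
    (T : ℕ) (hTp : T ≤ p - 1)
    (hT : ∀ x y z, (x, y, z) ∈ O → Reg κ x → ∀ s, HasOrd K x s → s < T)
    (hbig : ∃ x : ZMod p, Reg κ x ∧ HasOrd K x (p - 1)) (x y z : ZMod p)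
    (hv : (x, y, z) ∈ O) : x ^ 2 ≠ 4 := by
  intro hx4
  have hp : p.Prime := Fact.out
  have h2 : (2 : ZMod p) ≠ 0 := by
    intro h
    have h3 : ((2 : ℕ) : ZMod p) = 0 := by exact_mod_cast h
    rw [ZMod.natCast_eq_zero_iff] at h3
    have := Nat.le_of_dvd (by norm_num) h3
    have := hp.two_le
    omega
  obtain ⟨x₀, hreg, hord⟩ := hbig
  obtain ⟨e, hxe, hee⟩ : ∃ e : ZMod p, x = 2 * e ∧ e * e = 1 := by
    refine ⟨x / 2, by field_simp, ?_⟩
    field_simp
    rw [hx4]
    norm_num
  have he0 : e ≠ 0 := by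
    rintro rfl
    rw [zero_mul] at hee
    exact one_ne_zero hee.symm
  have hon : x ^ 2 + y ^ 2 + z ^ 2 - x * y * z = κ := hX _ hv
  have hs : z - e * y ≠ 0 := by
    intro h
    apply hκ
    rw [← hon, hxe]
    have hz : z = e * y := by linear_combination h
    rw [hz]
    linear_combination (4 + y ^ 2 - 2 * y ^ 2) * hee
  have hd : 2 * e * (z - e * y) ≠ 0 := mul_ne_zero (mul_ne_zero h2 he0) hs
  set n := ((x₀ - y) / (2 * e * (z - e * y))).val with hn
  have h1 := h_ordbound_par O hO x y z e hxe hee hv n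
  have hnc : (n : ZMod p) = (x₀ - y) / (2 * e * (z - e * y)) := by
    rw [hn, ZMod.natCast_val, ZMod.cast_id]
  have e1 : y + (n : ZMod p) * (2 * e * (z - e * y)) = x₀ := by
    rw [hnc, div_mul_cancel₀ _ hd]
    ring
  rw [e1] at h1
  have h3 := hT _ _ _ (hO.swap12 _ _ _ h1) hreg _ hord
  omega

/-- rotation at a degenerate coordinate -/
private theorem h_ordbound_rot {F : Type*} [Field F] (O : Set (F × F × F)) (hO : Inv O)
    (x y w : F) (hw : w ≠ 0) (hx : w + w⁻¹ = x) (hv : (x, y, w * y) ∈ O) (n : ℕ) :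
    (x, w ^ n * y, w ^ (n + 1) * y) ∈ O := by
  induction n with
  | zero => simpa using hv
  | succ n ih =>
    have h1 := hO.vieta _ _ _ (hO.swap23 _ _ _ ih)
    have e1 : x * (w ^ (n + 1) * y) - w ^ n * y = w ^ (n + 1 + 1) * y := by
      rw [← hx]
      have hww : w * w⁻¹ = 1 := mul_inv_cancel₀ hw
      rw [pow_succ w (n + 1), pow_succ w n]
      linear_combination (w ^ n * y) * hww
    rw [e1] at h1
    exact h1

/-- few elements have small orders -/
private theorem h_ordbound_few (p : ℕ) [Fact p.Prime] (K : Type) [Field K] [Fintype K]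
    [Algebra (ZMod p) K] (T : ℕ) :
    {t : ZMod p | ∃ r < T, HasOrd K t r}.ncard ≤ T ^ 2 := by
  classical
  have h1 : {t : ZMod p | ∃ r < T, HasOrd K t r} ⊆
      ⋃ r ∈ Finset.range T, {t : ZMod p | HasOrd K t r} := by
    rintro t ⟨r, hr, h⟩
    simp only [Finset.mem_range, Set.mem_iUnion, Set.mem_ofPred_eq, exists_prop]
    exact ⟨r, hr, h⟩
  calc {t : ZMod p | ∃ r < T, HasOrd K t r}.ncard
      ≤ (⋃ r ∈ Finset.range T, {t : ZMod p | HasOrd K t r}).ncard :=
        Set.ncard_le_ncard h1 (Set.toFinite _)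
    _ ≤ ∑ r ∈ Finset.range T, {t : ZMod p | HasOrd K t r}.ncard :=
        Finset.set_ncard_biUnion_le _ _
    _ ≤ ∑ r ∈ Finset.range T, T := by
        refine Finset.sum_le_sum fun r hr => ?_
        exact (hasOrd_ncard p K r).trans (Finset.mem_range.mp hr).le
    _ = T ^ 2 := by
        rw [Finset.sum_const, Finset.card_range, smul_eq_mul, sq]

/-- at most two square roots -/
private theorem h_ordbound_sq {F : Type*} [Field F] [Finite F] (κ : F) :
    {t : F | t ^ 2 = κ}.ncard ≤ 2 := by
  classical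
  by_cases h : ∃ r, r ^ 2 = κ
  · obtain ⟨r, rfl⟩ := h
    have h1 : {t : F | t ^ 2 = r ^ 2} ⊆ {r, -r} := by
      intro t ht
      exact sq_eq_sq_iff_eq_or_eq_neg.mp ht
    refine (Set.ncard_le_ncard h1 (Set.toFinite _)).trans ?_
    refine (Set.ncard_insert_le _ _).trans ?_
    rw [Set.ncard_singleton]
  · have h1 : {t : F | t ^ 2 = κ} = ∅ := by
      ext t
      simp only [Set.mem_ofPred_eq, Set.mem_empty_iff_false, iff_false]
      exact fun h2 => h ⟨t, h2⟩
    rw [h1, Set.ncard_empty]
    norm_num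

theorem ordBound (p : ℕ) [Fact p.Prime] (hp2 : p ≠ 2) (K : Type) [Field K] [Fintype K]
    [Algebra (ZMod p) K] (hK : Fintype.card K = p ^ 2) (κ : ZMod p) (hκ : κ ≠ 4)
    (O : Set (ZMod p × ZMod p × ZMod p)) (hO : Inv O) (hX : ∀ v ∈ O, OnX κ v)
    (hnd : ∀ x y z, (x, y, z) ∈ O → ¬ (y = 0 ∧ z = 0)) (T : ℕ) (hTp : T ≤ p - 1)
    (hT : ∀ x y z, (x, y, z) ∈ O → Reg κ x → ∀ s, HasOrd K x s → s < T)
    (hbig : ∃ x : ZMod p, Reg κ x ∧ HasOrd K x (p - 1)) (x y z : ZMod p)
    (hv : (x, y, z) ∈ O) : x ^ 2 ≠ 4 ∧ ∀ s, HasOrd K x s → 3 ≤ s ∧ s ≤ T ^ 2 + 2 := by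
  classical
  have hfour := h_ordbound_four p hp2 K κ hκ O hO hX T hTp hT hbig
  have hx4 := hfour x y z hv
  refine ⟨hx4, fun s hs => ⟨?_, ?_⟩⟩
  · by_contra hs3
    have hpos := hasOrd_pos p K hs
    obtain ⟨w, hw, hwx, hws⟩ := hs
    have hw2 : w ^ 2 = 1 := by
      apply orderOf_dvd_iff_pow_eq_one.mp
      have : s = 1 ∨ s = 2 := by omega
      rcases this with h | h
      · rw [hws, h]
        exact one_dvd _
      · rw [hws, h]
    have hwi : w⁻¹ = w := by
      rw [inv_eq_iff_eq_inv, ← mul_left_inj' hw, inv_mul_cancel₀ hw, ← sq, hw2]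
    apply hx4
    apply (algebraMap (ZMod p) K).injective
    rw [map_pow, ← hwx, hwi, map_ofNat]
    linear_combination 4 * hw2
  · by_cases hreg : x ^ 2 = κ
    · -- the degenerate case
      obtain ⟨w₀, hw₀, hwx₀, hws₀⟩ := hs
      set a := algebraMap (ZMod p) K with ha
      have hinj : Function.Injective a := (algebraMap (ZMod p) K).injective
      have hon : x ^ 2 + y ^ 2 + z ^ 2 - x * y * z = κ := hX _ hv
      have hon2 : y ^ 2 + z ^ 2 - x * y * z = 0 := by linear_combination hon - hreg
      have hfac : (a z - w₀ * a y) * (a z - w₀⁻¹ * a y) = 0 := by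
        have h1 := congrArg a hon2
        rw [map_sub, map_add, map_mul, map_mul, map_pow, map_pow, map_zero, ← hwx₀] at h1
        have hww : w₀ * w₀⁻¹ = 1 := mul_inv_cancel₀ hw₀
        linear_combination h1 + (a y) ^ 2 * hww
      obtain ⟨w, hw, hwx, hws, hzw⟩ : ∃ w : K, w ≠ 0 ∧ w + w⁻¹ = a x ∧ orderOf w = s ∧
          a z = w * a y := by
        rcases mul_eq_zero.mp hfac with h | h
        · exact ⟨w₀, hw₀, hwx₀, hws₀, sub_eq_zero.mp h⟩
        · refine ⟨w₀⁻¹, inv_ne_zero hw₀, ?_, ?_, sub_eq_zero.mp h⟩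
          · rw [inv_inv, add_comm]
            exact hwx₀
          · have h5 : orderOf w₀⁻¹ = orderOf w₀ := by
              rw [← Units.val_mk0 hw₀, ← Units.val_inv_eq_inv_val, orderOf_units, orderOf_units,
                orderOf_inv]
            rw [h5]
            exact hws₀
      have hy0 : y ≠ 0 := by
        intro h
        apply hnd x y z hv
        refine ⟨h, ?_⟩
        apply hinj
        rw [hzw, h, map_zero, mul_zero]
      have hay0 : a y ≠ 0 := by
        intro h
        exact hy0 (hinj (by rw [h, map_zero]))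
      set ω : ZMod p := z / y with hω
      have haω : a ω = w := by
        rw [hω, map_div₀, hzw]
        field_simp
      have hω0 : ω ≠ 0 := by
        intro h
        rw [h, map_zero] at haω
        exact hw haω.symm
      have hωx : ω + ω⁻¹ = x := by
        apply hinj
        rw [map_add, map_inv₀, haω, hwx]
      have hωz : ω * y = z := by
        rw [hω]
        field_simp
      have hωs : orderOf ω = s := by
        rw [← hws, ← haω]
        exact (orderOf_injective (algebraMap (ZMod p) K).toMonoidHom hinj ω).symm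
      have hspos : 0 < s := by
        exact hasOrd_pos p K (⟨w, hw, hwx, hws⟩ : HasOrd K x s)
      have hrot := h_ordbound_rot O hO x y ω hω0 hωx (by rw [hωz]; exact hv)
      -- the distinct second coordinates
      have hsub : (fun j : ℕ => ω ^ j * y) '' (Set.Iio s) ⊆
          {t : ZMod p | t ^ 2 = κ} ∪ {t : ZMod p | ∃ r < T, HasOrd K t r} := by
        rintro _ ⟨j, _, rfl⟩
        have h1 := hO.swap12 _ _ _ (hrot j)
        have h4 := hfour _ _ _ h1
        by_cases h5 : (ω ^ j * y) ^ 2 = κ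
        · exact Or.inl h5
        · right
          obtain ⟨r, hr⟩ := hasOrd_exists p K hp2 hK (ω ^ j * y)
          exact ⟨r, hT _ _ _ h1 ⟨h4, h5⟩ r hr, hr⟩
      have hinjOn : Set.InjOn (fun j : ℕ => ω ^ j * y) (Set.Iio s) := by
        intro i hi j hj hij
        simp only at hij
        have h1 := mul_right_cancel₀ hy0 hij
        have hi' : i < orderOf ω := by rw [hωs]; exact hi
        have hj' : j < orderOf ω := by rw [hωs]; exact hj
        exact pow_injOn_Iio_orderOf hi' hj' h1
      have hcard : ((fun j : ℕ => ω ^ j * y) '' (Set.Iio s)).ncard = s := by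
        rw [hinjOn.ncard_image]
        have : (Set.Iio s : Set ℕ) = ↑(Finset.range s) := by
          ext j
          simp
        rw [this, Set.ncard_coe_finset, Finset.card_range]
      have h1 := Set.ncard_le_ncard hsub (Set.toFinite _)
      have h2 := Set.ncard_union_le {t : ZMod p | t ^ 2 = κ}
        {t : ZMod p | ∃ r < T, HasOrd K t r}
      have h3 := h_ordbound_sq κ
      have h4 := h_ordbound_few p K T
      rw [hcard] at h1
      omega
    · have h1 := hT x y z hv ⟨hx4, hreg⟩ s hs
      nlinarith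

end MW
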