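import Pool.Agent.Lib.MP_a542cf_al.Defs

/-! MW2-RootsLift: Teichmueller lift of the roots of unity of `K` to complex roots of unity. -/

namespace MW

private lemma h_rootslift_aux (N : ℕ) (hN : 0 < N) (K : Type) [Field K] (ζ : ℂ)
    (hζ : IsPrimitiveRoot ζ N) (g : K) (hg : IsPrimitiveRoot g N) :
    ∃ φ : (Polynomial.aeval (R := ℤ) ζ).toRingHom.range →+* K,
      ∀ h : ζ ∈ (Polynomial.aeval (R := ℤ) ζ).toRingHom.range, φ ⟨ζ, h⟩ = g := by
  have hker : RingHom.ker (Polynomial.aeval (R := ℤ) ζ).toRingHom.rangeRestrict ≤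
      RingHom.ker (Polynomial.eval₂RingHom (Int.castRingHom K) g) := by
    intro P hP
    rw [RingHom.mem_ker] at hP ⊢
    have h1 : Polynomial.aeval (R := ℤ) ζ P = 0 := congrArg Subtype.val hP
    have h2 : Polynomial.cyclotomic N ℤ ∣ P := by
      rw [Polynomial.cyclotomic_eq_minpoly hζ hN]
      exact minpoly.isIntegrallyClosed_dvd (hζ.isIntegral hN) h1
    obtain ⟨Q, rfl⟩ := h2
    rw [map_mul]
    have h3 : (Polynomial.eval₂RingHom (Int.castRingHom K) g) (Polynomial.cyclotomic N ℤ) = 0 := by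
      have h4 := hg.isRoot_cyclotomic hN
      rw [← Polynomial.map_cyclotomic_int, Polynomial.IsRoot, Polynomial.eval_map] at h4
      exact h4
    rw [h3, zero_mul]
  have hsurj : Function.Surjective (Polynomial.aeval (R := ℤ) ζ).toRingHom.rangeRestrict :=
    RingHom.rangeRestrict_surjective _
  refine ⟨RingHom.liftOfSurjective _ hsurj ⟨Polynomial.eval₂RingHom (Int.castRingHom K) g, hker⟩, ?_⟩
  intro h
  have h5 : (⟨ζ, h⟩ : (Polynomial.aeval (R := ℤ) ζ).toRingHom.range) =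
      (Polynomial.aeval (R := ℤ) ζ).toRingHom.rangeRestrict Polynomial.X := by
    apply Subtype.ext
    exact (Polynomial.aeval_X (R := ℤ) ζ).symm
  rw [h5, RingHom.liftOfRightInverse_comp_apply]
  simp

theorem rootsLift (p : ℕ) [Fact p.Prime] (K : Type) [Field K] [Fintype K]
    [Algebra (ZMod p) K] (hK : Fintype.card K = p ^ 2) :
    ∃ (S : Subring ℂ) (φ : S →+* K) (θ : Kˣ →* Sˣ),
      (∀ w : Kˣ, φ ((θ w : Sˣ) : S) = (w : K)) ∧ ∀ s : S, IsIntegral ℤ (s : ℂ) := by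
  classical
  obtain ⟨g, hg⟩ := IsCyclic.exists_generator (α := Kˣ)
  obtain ⟨N, hN⟩ : ∃ N, N = orderOf g := ⟨_, rfl⟩
  have hN0 : 0 < N := by rw [hN]; exact orderOf_pos g
  have hgp : IsPrimitiveRoot (g : K) N := by
    rw [hN, IsPrimitiveRoot.coe_units_iff]
    exact IsPrimitiveRoot.orderOf g
  obtain ⟨ζ, hζ⟩ : ∃ ζ : ℂ, IsPrimitiveRoot ζ N := ⟨_, Complex.isPrimitiveRoot_exp N hN0.ne'⟩
  obtain ⟨φ, hφ⟩ := h_rootslift_aux N hN0 K ζ hζ g hgp
  have hmem : ζ ∈ (Polynomial.aeval (R := ℤ) ζ).toRingHom.range := ⟨Polynomial.X, by simp⟩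
  have hpow : (⟨ζ, hmem⟩ : (Polynomial.aeval (R := ℤ) ζ).toRingHom.range) ^ N = 1 := by
    apply Subtype.ext
    exact hζ.pow_eq_one
  obtain ⟨zS, hzS, hzN⟩ : ∃ zS : ((Polynomial.aeval (R := ℤ) ζ).toRingHom.range)ˣ,
      (zS : (Polynomial.aeval (R := ℤ) ζ).toRingHom.range) = ⟨ζ, hmem⟩ ∧ zS ^ N = 1 :=
    ⟨Units.ofPowEqOne _ N hpow hN0.ne', rfl, Units.pow_ofPowEqOne hpow hN0.ne'⟩
  have hord : orderOf zS ∣ orderOf g := by
    rw [← hN]
    exact orderOf_dvd_of_pow_eq_one hzN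
  refine ⟨(Polynomial.aeval (R := ℤ) ζ).toRingHom.range, φ, monoidHomOfForallMemZpowers hg hord,
    ?_, ?_⟩
  · intro w
    have key : (Units.map φ.toMonoidHom) (monoidHomOfForallMemZpowers hg hord w) = w := by
      obtain ⟨k, rfl⟩ := hg w
      simp only
      rw [map_zpow, map_zpow, monoidHomOfForallMemZpowers_apply_gen]
      congr 1
      apply Units.ext
      rw [Units.coe_map, hzS]
      exact hφ hmem
    have := congrArg Units.val key
    rwa [Units.coe_map] at this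
  · rintro ⟨s, P, rfl⟩
    have h1 : Algebra.adjoin ℤ {ζ} ≤ integralClosure ℤ ℂ := by
      rw [Algebra.adjoin_le_iff]
      intro x hx
      rw [Set.mem_singleton_iff] at hx
      rw [hx]
      exact hζ.isIntegral hN0
    exact h1 (Polynomial.aeval_mem_adjoin_singleton ℤ ζ)

end MW
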