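import Pool.Agent.Lib.MP_a542cf_al.ConjTriple

/-! MW2-SU2: pairs with traces in the compact part have bounded word traces. -/

namespace MW

/-- unitary matrices of determinant one -/
private def su2_U (g : SL2 ℂ) : Prop :=
  g.1 1 1 = (starRingEnd ℂ) (g.1 0 0) ∧ g.1 1 0 = -(starRingEnd ℂ) (g.1 0 1)

private theorem su2_mul {g h : SL2 ℂ} (hg : su2_U g) (hh : su2_U h) : su2_U (g * h) := by
  obtain ⟨g1, g2⟩ := hg
  obtain ⟨h1, h2⟩ := hh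
  have hgh : (g * h).1 = g.1 * h.1 := rfl
  refine ⟨?_, ?_⟩
  · rw [hgh, Matrix.mul_apply, Matrix.mul_apply, Fin.sum_univ_two, Fin.sum_univ_two, map_add,
      map_mul, map_mul, g1, g2, h1, h2, map_neg, Complex.conj_conj]
    ring
  · rw [hgh, Matrix.mul_apply, Matrix.mul_apply, Fin.sum_univ_two, Fin.sum_univ_two, map_add,
      map_mul, map_mul, g1, g2, h1, h2, Complex.conj_conj]
    ring

private theorem su2_invval (A : SL2 ℂ) :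
    (A⁻¹ : SL2 ℂ).1 = !![A.1 1 1, -A.1 0 1; -A.1 1 0, A.1 0 0] := by
  rw [Matrix.SpecialLinearGroup.coe_inv, Matrix.adjugate_fin_two]

private theorem su2_inv {g : SL2 ℂ} (hg : su2_U g) : su2_U g⁻¹ := by
  obtain ⟨g1, g2⟩ := hg
  have i00 : (g⁻¹ : SL2 ℂ).1 0 0 = g.1 1 1 := by rw [su2_invval]; rfl
  have i01 : (g⁻¹ : SL2 ℂ).1 0 1 = -g.1 0 1 := by rw [su2_invval]; rfl
  have i10 : (g⁻¹ : SL2 ℂ).1 1 0 = -g.1 1 0 := by rw [su2_invval]; rfl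
  have i11 : (g⁻¹ : SL2 ℂ).1 1 1 = g.1 0 0 := by rw [su2_invval]; rfl
  refine ⟨?_, ?_⟩
  · rw [i00, i11, g1, Complex.conj_conj]
  · rw [i10, i01, g2, map_neg]

private theorem su2_one : su2_U 1 := by
  have h : (1 : SL2 ℂ).1 = (1 : Matrix (Fin 2) (Fin 2) ℂ) := rfl
  refine ⟨?_, ?_⟩
  · rw [h, Matrix.one_apply_eq, Matrix.one_apply_eq, map_one]
  · rw [h, Matrix.one_apply_ne (by decide), Matrix.one_apply_ne (by decide), map_zero, neg_zero]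

private theorem su2_trace {g : SL2 ℂ} (hg : su2_U g) : ∃ r : ℝ, |r| ≤ 2 ∧ tr g = (r : ℂ) := by
  obtain ⟨g1, g2⟩ := hg
  refine ⟨2 * (g.1 0 0).re, ?_, ?_⟩
  · have hdet := g.2
    rw [Matrix.det_fin_two, g1, g2, mul_neg, sub_neg_eq_add, Complex.mul_conj,
      Complex.mul_conj] at hdet
    have h1 : Complex.normSq (g.1 0 0) + Complex.normSq (g.1 0 1) = 1 := by exact_mod_cast hdet
    have h2 : 0 ≤ Complex.normSq (g.1 0 1) := Complex.normSq_nonneg _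
    rw [Complex.normSq_apply] at h1
    have h3 : (g.1 0 0).re ^ 2 ≤ 1 := by nlinarith [sq_nonneg (g.1 0 0).im]
    have h4 : |(g.1 0 0).re| ≤ 1 := by
      apply abs_le_of_sq_le_sq _ zero_le_one
      rw [one_pow]
      exact h3
    rw [abs_mul, abs_two]
    linarith
  · have h1 : tr g = g.1 0 0 + g.1 1 1 := Matrix.trace_fin_two _
    rw [h1, g1, Complex.add_conj]

/-- a unitary pair with the given traces -/
private theorem su2_exists (x y z : ℝ) (hx : |x| < 2)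
    (hκ : x ^ 2 + y ^ 2 + z ^ 2 - x * y * z < 4) : ∃ A B : SL2 ℂ, su2_U A ∧ su2_U B ∧
      tr A = (x : ℂ) ∧ tr B = (y : ℂ) ∧ tr (A * B) = (z : ℂ) := by
  have hx2 : x ^ 2 < 4 := by
    have := abs_lt.1 hx
    nlinarith
  obtain ⟨s, hs0, hs2⟩ : ∃ s : ℝ, 0 < s ∧ 4 * s ^ 2 = 4 - x ^ 2 := by
    refine ⟨Real.sqrt (1 - x ^ 2 / 4), Real.sqrt_pos.2 (by linarith), ?_⟩
    rw [Real.sq_sqrt (by linarith)]
    ring
  obtain ⟨t, ht⟩ : ∃ t : ℝ, 2 * s * t = y * (x / 2) - z := ⟨(y * (x / 2) - z) / (2 * s), by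
    field_simp⟩
  have hu : (y / 2) ^ 2 + t ^ 2 < 1 := by
    have h1 : 4 * s ^ 2 * ((y / 2) ^ 2 + t ^ 2) < 4 * s ^ 2 * 1 := by
      have h2 : 4 * s ^ 2 * t ^ 2 = (y * (x / 2) - z) ^ 2 := by rw [← ht]; ring
      have h3 : 4 * s ^ 2 * ((y / 2) ^ 2 + t ^ 2) = 4 * s ^ 2 * (y / 2) ^ 2 + 4 * s ^ 2 * t ^ 2 := by
        ring
      rw [h3, h2, hs2]
      nlinarith
    exact lt_of_mul_lt_mul_left h1 (by positivity)
  obtain ⟨v, hv⟩ : ∃ v : ℝ, v ^ 2 = 1 - ((y / 2) ^ 2 + t ^ 2) :=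
    ⟨Real.sqrt (1 - ((y / 2) ^ 2 + t ^ 2)), Real.sq_sqrt (by linarith)⟩
  have hI : Complex.I ^ 2 = -1 := Complex.I_sq
  have hs2C : 4 * (s : ℂ) ^ 2 = 4 - (x : ℂ) ^ 2 := by exact_mod_cast congrArg (fun r : ℝ => (r : ℂ)) hs2
  have htC : 2 * (s : ℂ) * t = y * (x / 2) - z := by exact_mod_cast congrArg (fun r : ℝ => (r : ℂ)) ht
  have hvC : (v : ℂ) ^ 2 = 1 - (((y : ℂ) / 2) ^ 2 + (t : ℂ) ^ 2) := by
    exact_mod_cast congrArg (fun r : ℝ => (r : ℂ)) hv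
  refine ⟨⟨!![(x : ℂ) / 2 + s * Complex.I, 0; 0, (x : ℂ) / 2 - s * Complex.I], ?_⟩,
    ⟨!![(y : ℂ) / 2 + t * Complex.I, v; -v, (y : ℂ) / 2 - t * Complex.I], ?_⟩,
    ⟨?_, ?_⟩, ⟨?_, ?_⟩, ?_, ?_, ?_⟩
  · rw [Matrix.det_fin_two_of]
    linear_combination (-(s : ℂ) ^ 2) * hI + hs2C / 4
  · rw [Matrix.det_fin_two_of]
    linear_combination (-(t : ℂ) ^ 2) * hI + hvC
  · show (x : ℂ) / 2 - s * Complex.I = (starRingEnd ℂ) ((x : ℂ) / 2 + s * Complex.I)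
    rw [map_add, map_mul, Complex.conj_I, Complex.conj_ofReal, map_div₀, Complex.conj_ofReal,
      map_ofNat]
    ring
  · show (0 : ℂ) = -(starRingEnd ℂ) (0 : ℂ)
    rw [map_zero, neg_zero]
  · show (y : ℂ) / 2 - t * Complex.I = (starRingEnd ℂ) ((y : ℂ) / 2 + t * Complex.I)
    rw [map_add, map_mul, Complex.conj_I, Complex.conj_ofReal, map_div₀, Complex.conj_ofReal,
      map_ofNat]
    ring
  · show -(v : ℂ) = -(starRingEnd ℂ) (v : ℂ)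
    rw [Complex.conj_ofReal]
  · show Matrix.trace _ = _
    rw [Matrix.trace_fin_two_of]
    ring
  · show Matrix.trace _ = _
    rw [Matrix.trace_fin_two_of]
    ring
  · show Matrix.trace (!![(x : ℂ) / 2 + s * Complex.I, 0; 0, (x : ℂ) / 2 - s * Complex.I] *
      !![(y : ℂ) / 2 + t * Complex.I, v; -v, (y : ℂ) / 2 - t * Complex.I]) = _
    rw [Matrix.trace_fin_two]
    simp only [Matrix.mul_apply, Fin.sum_univ_two, Matrix.of_apply, Matrix.cons_val', Matrix.cons_val_zero,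
      Matrix.cons_val_one, Matrix.cons_val_fin_one]
    linear_combination (2 * (s : ℂ) * t) * hI - htC

theorem su2 (x y z : ℝ) (hx : |x| < 2) (hκ : x ^ 2 + y ^ 2 + z ^ 2 - x * y * z < 4)
    (P : SL2 ℂ × SL2 ℂ) (hP : triple P = ((x : ℂ), (y : ℂ), (z : ℂ))) (g : SL2 ℂ)
    (hg : g ∈ Subgroup.closure ({P.1, P.2} : Set (SL2 ℂ))) : ∃ r : ℝ, |r| ≤ 2 ∧ tr g = (r : ℂ) := by
  obtain ⟨A, B, hA, hB, h1, h2, h3⟩ := su2_exists x y z hx hκ
  have hQ : triple (A, B) = ((x : ℂ), (y : ℂ), (z : ℂ)) := by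
    unfold triple
    rw [h1, h2, h3]
  have hne : ((x ^ 2 + y ^ 2 + z ^ 2 - x * y * z : ℝ) : ℂ) ≠ 4 := by
    intro h
    have h4 : (x ^ 2 + y ^ 2 + z ^ 2 - x * y * z : ℝ) = 4 := by exact_mod_cast h
    linarith
  obtain ⟨X, hX, hc1, hc2⟩ := conjTriple (F := ℂ) two_ne_zero
    ((x ^ 2 + y ^ 2 + z ^ 2 - x * y * z : ℝ) : ℂ) hne P (A, B)
    (by rw [hP]; unfold OnX; push_cast; ring) (by rw [hP, hQ])
  simp only at hc1 hc2
  have hXu : IsUnit X.det := isUnit_iff_ne_zero.2 hX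
  have hall : ∃ g0 : SL2 ℂ, su2_U g0 ∧ X * g.1 = g0.1 * X := by
    induction hg using Subgroup.closure_induction with
    | mem w hw =>
      rcases hw with rfl | hw
      · exact ⟨A, hA, hc1⟩
      · rw [Set.mem_singleton_iff] at hw
        subst hw
        exact ⟨B, hB, hc2⟩
    | one =>
      refine ⟨1, su2_one, ?_⟩
      have : (1 : SL2 ℂ).1 = (1 : Matrix (Fin 2) (Fin 2) ℂ) := rfl
      rw [this, one_mul, mul_one]
    | mul a b _ _ ha hb =>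
      obtain ⟨a0, ha0, ha1⟩ := ha
      obtain ⟨b0, hb0, hb1⟩ := hb
      refine ⟨a0 * b0, su2_mul ha0 hb0, ?_⟩
      have e1 : (a * b).1 = a.1 * b.1 := rfl
      have e2 : (a0 * b0).1 = a0.1 * b0.1 := rfl
      rw [e1, e2, ← mul_assoc, ha1, mul_assoc, hb1, mul_assoc]
    | inv a _ ha =>
      obtain ⟨a0, ha0, ha1⟩ := ha
      refine ⟨a0⁻¹, su2_inv ha0, ?_⟩
      have e1 : a.1 * (a⁻¹ : SL2 ℂ).1 = 1 := by
        have : (a * a⁻¹).1 = (1 : SL2 ℂ).1 := by rw [mul_inv_cancel]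
        exact this
      have e2 : (a0⁻¹ : SL2 ℂ).1 * a0.1 = 1 := by
        have : (a0⁻¹ * a0).1 = (1 : SL2 ℂ).1 := by rw [inv_mul_cancel]
        exact this
      calc X * (a⁻¹ : SL2 ℂ).1 = ((a0⁻¹ : SL2 ℂ).1 * a0.1) * X * (a⁻¹ : SL2 ℂ).1 := by
            rw [e2, one_mul]
        _ = (a0⁻¹ : SL2 ℂ).1 * (a0.1 * X) * (a⁻¹ : SL2 ℂ).1 := by simp only [mul_assoc]
        _ = (a0⁻¹ : SL2 ℂ).1 * (X * a.1) * (a⁻¹ : SL2 ℂ).1 := by rw [ha1]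
        _ = (a0⁻¹ : SL2 ℂ).1 * X * (a.1 * (a⁻¹ : SL2 ℂ).1) := by simp only [mul_assoc]
        _ = (a0⁻¹ : SL2 ℂ).1 * X := by rw [e1, mul_one]
  obtain ⟨g0, hg0, hg1⟩ := hall
  obtain ⟨r, hr, hr2⟩ := su2_trace hg0
  refine ⟨r, hr, ?_⟩
  rw [← hr2]
  show Matrix.trace g.1 = Matrix.trace g0.1
  have e1 : g.1 = X⁻¹ * (g0.1 * X) := by
    rw [← hg1, ← mul_assoc, Matrix.nonsing_inv_mul X hXu, one_mul]
  rw [e1, Matrix.trace_mul_comm, mul_assoc, Matrix.mul_nonsing_inv X hXu, mul_one]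

end MW
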