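import Pool.Agent.Lib.MP_a542cf_al.GenNondih
import Pool.Agent.Lib.MP_a542cf_al.Moves
import Pool.Agent.Lib.MP_a542cf_al.PairExists
import Pool.Agent.Lib.MP_a542cf_al.H.RootsLift
import Pool.Agent.Lib.MP_a542cf_al.H.SU2
import Pool.Agent.Lib.MP_a542cf_al.H.FrickeWord
import Pool.Agent.Lib.MP_a542cf_al.H.Kron
import Pool.Agent.Lib.MP_a542cf_al.H.OrdBound
import Pool.Agent.Lib.MP_a542cf_al.H.LiftOrbit

/-! MW2-NoSmall: outside few primes, every generating pair has a Nielsen equivalent pair whose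
first trace is regular of order at least `T`. -/

namespace MW

open MvPolynomial in
private theorem noSmall_hom {R R' : Type*} [CommRing R] [CommRing R'] (g : R →+* R')
    (v : Fin 3 → R) (f : MvPolynomial (Fin 3) ℤ) :
    g (MvPolynomial.aeval v f) = MvPolynomial.aeval (fun i => g (v i)) f := by
  induction f using MvPolynomial.induction_on with
  | C a => simp
  | add p q hp hq => rw [map_add, map_add, map_add, hp, hq]
  | mul_X p i hp => rw [map_mul, map_mul, map_mul, aeval_X, aeval_X, hp]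

private theorem noSmall_vec {R R' : Type*} [CommRing R] [CommRing R'] (g : R →+* R')
    (x y z : R) (f : MvPolynomial (Fin 3) ℤ) :
    g (MvPolynomial.aeval ![x, y, z] f) = MvPolynomial.aeval ![g x, g y, g z] f := by
  rw [noSmall_hom]
  congr 2
  funext i
  fin_cases i <;> rfl

private theorem noSmall_range {G : Type*} (a b : G) : Set.range ![a, b] = ({a, b} : Set G) := by
  simp [Matrix.range_cons, Set.pair_comm]

private theorem noSmall_word {G : Type*} [Group G] (a b g : G)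
    (hg : g ∈ Subgroup.closure ({a, b} : Set G)) :
    ∃ w : FreeGroup (Fin 2), FreeGroup.lift ![a, b] w = g := by
  rw [← noSmall_range, ← FreeGroup.range_lift_eq_closure] at hg
  exact hg

private theorem noSmall_word' {G : Type*} [Group G] (a b : G) (w : FreeGroup (Fin 2)) :
    FreeGroup.lift ![a, b] w ∈ Subgroup.closure ({a, b} : Set G) := by
  rw [← noSmall_range, ← FreeGroup.range_lift_eq_closure]
  exact ⟨w, rfl⟩

open Polynomial in
/-- degree of a simple extension generated by a root of unity -/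
private theorem noSmall_root (a : ℂ) (n : ℕ) (hn : 0 < n) (ha : a ^ n = 1) :
    IsIntegral ℚ a ∧ Module.finrank ℚ (IntermediateField.adjoin ℚ ({a} : Set ℂ)) ≤ n := by
  have hm : (X ^ n - C (1 : ℚ)).Monic := monic_X_pow_sub_C 1 hn.ne'
  have h0 : Polynomial.aeval a (X ^ n - C (1 : ℚ)) = 0 := by
    simp [ha]
  have hint : IsIntegral ℚ a := ⟨_, hm, by rwa [← Polynomial.aeval_def]⟩
  refine ⟨hint, ?_⟩
  rw [IntermediateField.adjoin.finrank hint]
  have h1 := natDegree_le_natDegree (minpoly.min ℚ a hm h0)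
  rwa [natDegree_X_pow_sub_C] at h1

/-- degree of an element generated by three roots of unity -/
private theorem noSmall_deg (a b c : ℂ) (na nb nc T : ℕ) (ha0 : 0 < na) (hb0 : 0 < nb)
    (hc0 : 0 < nc) (haT : na ≤ T) (hbT : nb ≤ T) (hcT : nc ≤ T) (ha : a ^ na = 1)
    (hb : b ^ nb = 1) (hc : c ^ nc = 1) (f : MvPolynomial (Fin 3) ℤ) :
    (minpoly ℚ (MvPolynomial.aeval ![a + a⁻¹, b + b⁻¹, c + c⁻¹] f : ℂ)).natDegree ≤ T ^ 3 := by
  obtain ⟨ia, fa⟩ := noSmall_root a na ha0 ha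
  obtain ⟨ib, fb⟩ := noSmall_root b nb hb0 hb
  obtain ⟨ic, fc⟩ := noSmall_root c nc hc0 hc
  set Ea := IntermediateField.adjoin ℚ ({a} : Set ℂ) with hEa
  set Eb := IntermediateField.adjoin ℚ ({b} : Set ℂ) with hEb
  set Ec := IntermediateField.adjoin ℚ ({c} : Set ℂ) with hEc
  haveI : FiniteDimensional ℚ Ea := IntermediateField.adjoin.finiteDimensional ia
  haveI : FiniteDimensional ℚ Eb := IntermediateField.adjoin.finiteDimensional ib
  haveI : FiniteDimensional ℚ Ec := IntermediateField.adjoin.finiteDimensional ic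
  set E := Ea ⊔ Eb ⊔ Ec with hE
  haveI : FiniteDimensional ℚ E := inferInstance
  have hfin : Module.finrank ℚ E ≤ T ^ 3 := by
    have h1 : Module.finrank ℚ E ≤ Module.finrank ℚ ↥(Ea ⊔ Eb) * Module.finrank ℚ Ec :=
      IntermediateField.finrank_sup_le (Ea ⊔ Eb) Ec
    have h2 : Module.finrank ℚ ↥(Ea ⊔ Eb) ≤ Module.finrank ℚ Ea * Module.finrank ℚ Eb :=
      IntermediateField.finrank_sup_le Ea Eb
    calc Module.finrank ℚ E ≤ Module.finrank ℚ ↥(Ea ⊔ Eb) * Module.finrank ℚ Ec := h1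
      _ ≤ (Module.finrank ℚ Ea * Module.finrank ℚ Eb) * Module.finrank ℚ Ec :=
        Nat.mul_le_mul_right _ h2
      _ ≤ (T * T) * T := Nat.mul_le_mul (Nat.mul_le_mul (fa.trans haT) (fb.trans hbT))
        (fc.trans hcT)
      _ = T ^ 3 := by ring
  have haE : a ∈ E := (le_sup_left.trans le_sup_left : Ea ≤ E)
    (IntermediateField.mem_adjoin_simple_self ℚ a)
  have hbE : b ∈ E := (le_sup_right.trans le_sup_left : Eb ≤ E)
    (IntermediateField.mem_adjoin_simple_self ℚ b)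
  have hcE : c ∈ E := (le_sup_right : Ec ≤ E) (IntermediateField.mem_adjoin_simple_self ℚ c)
  have h3 := noSmall_vec (algebraMap E ℂ) (⟨a, haE⟩ + ⟨a, haE⟩⁻¹) (⟨b, hbE⟩ + ⟨b, hbE⟩⁻¹)
    (⟨c, hcE⟩ + ⟨c, hcE⟩⁻¹) f
  have h4 : MvPolynomial.aeval ![a + a⁻¹, b + b⁻¹, c + c⁻¹] f =
      algebraMap E ℂ (MvPolynomial.aeval ![(⟨a, haE⟩ + ⟨a, haE⟩⁻¹ : E),
        (⟨b, hbE⟩ + ⟨b, hbE⟩⁻¹ : E), (⟨c, hcE⟩ + ⟨c, hcE⟩⁻¹ : E)] f) := by
    rw [h3]
    rfl
  rw [h4, minpoly.algebraMap_eq (algebraMap E ℂ).injective]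
  exact (minpoly.natDegree_le _).trans hfin

/-- conjugates come from embeddings -/
private theorem noSmall_conj (S : Subring ℂ) (hS : ∀ s : S, IsIntegral ℤ (s : ℂ)) (s : S) (β : ℂ)
    (hβ : β ∈ (minpoly ℚ (s : ℂ)).rootSet ℂ) :
    ∃ ψ : S →+* ℂ, Function.Injective ψ ∧ ψ s = β := by
  let E := algebraicClosure ℚ ℂ
  have hmem : ∀ s : S, (s : ℂ) ∈ E := by
    intro s
    rw [mem_algebraicClosure_iff']
    exact (hS s).tower_top
  let ι : S →+* E := S.subtype.codRestrict E hmem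
  have hι : Function.Injective ι := by
    intro x y hxy
    have := congrArg (fun z : E => (z : ℂ)) hxy
    exact Subtype.ext this
  have h1 : minpoly ℚ (s : ℂ) = minpoly ℚ (ι s) :=
    minpoly.algebraMap_eq (algebraMap E ℂ).injective (ι s)
  haveI : Algebra.IsAlgebraic ℚ E := algebraicClosure.isAlgebraic ℚ ℂ
  rw [h1, ← Algebra.IsAlgebraic.range_eval_eq_rootSet_minpoly (F := ℚ) (K := E) ℂ (ι s)] at hβ
  obtain ⟨ψ0, hψ0⟩ := hβ
  exact ⟨(ψ0 : E →+* ℂ).comp ι, (ψ0 : E →+* ℂ).injective.comp hι, hψ0⟩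

private theorem noSmall_trace (F : Type*) [Field F] (t : F) : ∃ g : SL2 F, tr g = t := by
  refine ⟨⟨!![t, -1; 1, 0], by simp [Matrix.det_fin_two]⟩, ?_⟩
  unfold tr
  simp [Matrix.trace_fin_two]

theorem noSmall (T : ℕ) : ∃ B : Finset ℕ, B.card ≤ 3 * (T ^ 2 + 2) ^ 12 ∧
    ∀ (p : ℕ) [Fact p.Prime], p ∉ B → 5 ≤ p → 64 * (T ^ 2 + 2) ^ 12 < p →
    ∀ (K : Type) [Field K] [Fintype K] [Algebra (ZMod p) K], Fintype.card K = p ^ 2 →
    (∀ κ : ZMod p, ∃ x : ZMod p, Reg κ x ∧ HasOrd K x (p - 1)) →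
    ∀ P : SL2 (ZMod p) × SL2 (ZMod p), IsGen P → lev P ≠ 2 →
    ∃ (Q : SL2 (ZMod p) × SL2 (ZMod p)) (t : ℕ), NEquiv P Q ∧ Reg (lev P + 2) (tr Q.1) ∧
      HasOrd K (tr Q.1) t ∧ T ≤ t := by
  obtain ⟨B, hB, hBp⟩ := badPrimes (T ^ 2 + 2)
  refine ⟨B, hB, ?_⟩
  intro p _ hpB hp5 hpT K _ _ _ hK hbig P hP hlev
  by_contra hcon
  haveI : CharP K p := charP_of_injective_algebraMap (algebraMap (ZMod p) K).injective p
  set κ : ZMod p := lev P + 2 with hκdef
  have hp2 : p ≠ 2 := by omega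
  have hκ : κ ≠ 4 := by
    intro h
    apply hlev
    have h1 : lev P + 2 = 2 + 2 := by rw [← hκdef, h]; norm_num
    exact add_right_cancel h1
  set O : Set (ZMod p × ZMod p × ZMod p) := {v | ∃ Q, NEquiv P Q ∧ triple Q = v} with hO
  have hOinv : Inv O := inv_orbit P
  have hX : ∀ v ∈ O, OnX κ v := by
    rintro v ⟨Q, hQ, rfl⟩
    have h1 := lev_eq Q
    rw [← lev_nequiv hQ] at h1
    unfold OnX
    rw [hκdef, h1]
    ring
  have hnd : ∀ x y z, (x, y, z) ∈ O → ¬ (y = 0 ∧ z = 0) := by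
    rintro x y z ⟨Q, hQ, hv⟩
    have h1 := gen_nondih p hp5 Q ((isGen_nequiv hQ).1 hP)
    simp only [triple, Prod.mk.injEq] at hv
    obtain ⟨-, rfl, rfl⟩ := hv
    exact h1
  have hTle : T ≤ p - 1 := by
    have h1 : T ≤ T ^ 2 + 2 := by nlinarith
    have h2 : (T ^ 2 + 2) ≤ (T ^ 2 + 2) ^ 12 := Nat.le_self_pow (by norm_num) _
    omega
  have hT : ∀ x y z, (x, y, z) ∈ O → Reg κ x → ∀ s, HasOrd K x s → s < T := by
    rintro x y z ⟨Q, hQ, hv⟩ hreg s hs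
    by_contra hsT
    apply hcon
    simp only [triple, Prod.mk.injEq] at hv
    obtain ⟨rfl, -, -⟩ := hv
    exact ⟨Q, s, hQ, hreg, hs, not_lt.1 hsT⟩
  have hOB := ordBound p hp2 K hK κ hκ O hOinv hX hnd T hTle hT (hbig κ)
  obtain ⟨S, φ, θ, hφ, hint⟩ := rootsLift p K hK
  have hrel : RelLift (T ^ 2 + 2) S φ := hBp p hpB K S φ
  obtain ⟨a, b, c, na, nb, nc, ha0, haT, ha, hb0, hbT, hb, hc0, hcT, hc, hφa, hφb, hφc, hψ⟩ :=
    liftOrbit p hp2 K hK κ hκ O hOinv hX (T ^ 2 + 2) (fun x y z h => hOB x y z h) S φ θ hφ hrel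
      (triple P).1 (triple P).2.1 (triple P).2.2 ⟨P, Relation.EqvGen.refl _, rfl⟩
  set X : S := (a : S) + ((a⁻¹ : Sˣ) : S) with hXdef
  set Y : S := (b : S) + ((b⁻¹ : Sˣ) : S) with hYdef
  set Z : S := (c : S) + ((c⁻¹ : Sˣ) : S) with hZdef
  -- complex values
  have hunit : ∀ u : Sˣ, (((u : S) : ℂ)) * (((u⁻¹ : Sˣ) : S) : ℂ) = 1 := by
    intro u
    have h1 : (u : S) * ((u⁻¹ : Sˣ) : S) = 1 := Units.mul_inv u
    exact congrArg (fun z : S => (z : ℂ)) h1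
  have hval : ∀ u : Sˣ, ((((u : S) + ((u⁻¹ : Sˣ) : S) : S)) : ℂ) = ((u : S) : ℂ) + ((u : S) : ℂ)⁻¹ := by
    intro u
    have h1 := hunit u
    have h2 : (((u⁻¹ : Sˣ) : S) : ℂ) = ((u : S) : ℂ)⁻¹ := eq_inv_of_mul_eq_one_right h1
    push_cast
    rw [h2]
  have hpow : ∀ (u : Sˣ) (n : ℕ), u ^ n = 1 → ((u : S) : ℂ) ^ n = 1 := by
    intro u n h
    have h1 : (u : S) ^ n = 1 := by
      rw [← Units.val_pow_eq_pow_val, h, Units.val_one]
    have h2 := congrArg (fun z : S => (z : ℂ)) h1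
    simpa using h2
  choose f hf using frickeWord
  let αS : FreeGroup (Fin 2) → S := fun w => MvPolynomial.aeval ![X, Y, Z] (f w)
  have hφα : ∀ w, φ (αS w) = algebraMap (ZMod p) K (tr (FreeGroup.lift ![P.1, P.2] w)) := by
    intro w
    show φ (MvPolynomial.aeval ![X, Y, Z] (f w)) = _
    rw [noSmall_vec, hφa, hφb, hφc, hf w (ZMod p) P, ← noSmall_vec]
  obtain ⟨A, hA, hAk⟩ := kron ((T ^ 2 + 2) ^ 3)
  have hmem : ∀ w, ((αS w : S) : ℂ) ∈ A := by
    intro w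
    have hval2 : ((αS w : S) : ℂ) = MvPolynomial.aeval
        ![((a : S) : ℂ) + ((a : S) : ℂ)⁻¹, ((b : S) : ℂ) + ((b : S) : ℂ)⁻¹,
          ((c : S) : ℂ) + ((c : S) : ℂ)⁻¹] (f w) := by
      have h1 := noSmall_vec S.subtype X Y Z (f w)
      have h2 : S.subtype X = ((a : S) : ℂ) + ((a : S) : ℂ)⁻¹ := hval a
      have h3 : S.subtype Y = ((b : S) : ℂ) + ((b : S) : ℂ)⁻¹ := hval b
      have h4 : S.subtype Z = ((c : S) : ℂ) + ((c : S) : ℂ)⁻¹ := hval c
      rw [h2, h3, h4] at h1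
      exact h1
    refine hAk _ (hint _) ?_ ?_
    · rw [hval2]
      exact noSmall_deg _ _ _ na nb nc _ ha0 hb0 hc0 haT hbT hcT (hpow a na ha) (hpow b nb hb)
        (hpow c nc hc) (f w)
    · intro β hβ
      obtain ⟨ψ, hψi, hψβ⟩ := noSmall_conj S hint (αS w) β hβ
      obtain ⟨r₁, r₂, r₃, h1, h2, h3, h4, h5⟩ := hψ ψ hψi
      obtain ⟨Pψ, hPψ⟩ := pair_of_triple ((r₁ : ℂ), (r₂ : ℂ), (r₃ : ℂ))
      obtain ⟨r, hr, hr2⟩ := su2 r₁ r₂ r₃ h4 h5 Pψ hPψ (FreeGroup.lift ![Pψ.1, Pψ.2] w)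
        (noSmall_word' _ _ w)
      refine ⟨r, hr, ?_⟩
      rw [← hψβ, ← hr2, hf w ℂ Pψ, hPψ]
      show ψ (MvPolynomial.aeval ![X, Y, Z] (f w)) = _
      rw [noSmall_vec, h1, h2, h3]
  -- counting
  have hw : ∀ t : ZMod p, ∃ w : FreeGroup (Fin 2), tr (FreeGroup.lift ![P.1, P.2] w) = t := by
    intro t
    obtain ⟨g, hg⟩ := noSmall_trace (ZMod p) t
    obtain ⟨w, hw⟩ := noSmall_word P.1 P.2 g (by rw [show Subgroup.closure _ = _ from hP]; trivial)
    exact ⟨w, by rw [hw, hg]⟩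
  choose w hw using hw
  have hcount : (Finset.univ : Finset (ZMod p)).card ≤ A.card := by
    refine Finset.card_le_card_of_injOn (fun t => ((αS (w t) : S) : ℂ)) ?_ ?_
    · intro t _
      exact hmem (w t)
    · intro t _ s _ hts
      have h1 : αS (w t) = αS (w s) := Subtype.ext hts
      have h2 := hφα (w t)
      rw [h1, hφα (w s), hw, hw] at h2
      exact ((algebraMap (ZMod p) K).injective h2).symm
  rw [Finset.card_univ, ZMod.card] at hcount
  have h1 : 64 * ((T ^ 2 + 2) ^ 3) ^ 4 = 64 * (T ^ 2 + 2) ^ 12 := by ring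
  rw [h1] at hA
  omega

end MW
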