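import Pool.Agent.Lib.MP_a542cf_al.FinalC
import Pool.Agent.Lib.MP_a542cf_al.ExPrim
import Pool.Agent.Lib.MP_a542cf_al.H.NoSmall

/-! MW2-Final2: all levels for all primes outside a sparse set. -/

namespace MW

/-- all levels at `p`, if `p` is outside a small set depending on the threshold `T` -/
theorem all_levels : ∃ p₀ : ℕ, ∀ T : ℕ, ∃ B : Finset ℕ, B.card ≤ 3 * (T ^ 2 + 2) ^ 12 ∧
    ∀ (p : ℕ) [Fact p.Prime], p₀ ≤ p → p ∉ B → 64 * (T ^ 2 + 2) ^ 12 < p →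
      2 ^ 31 * (Dv p) ^ 5 ≤ T → ∀ k : ZMod p, k ≠ 2 → numOrbits p k = expected p k := by
  obtain ⟨p₁, hcore⟩ := core_props
  obtain ⟨p₂, hfin⟩ := final_G
  obtain ⟨p₃, hex⟩ := exPrim
  refine ⟨p₁ + p₂ + p₃ + 5, fun T => ?_⟩
  obtain ⟨B, hB, hsm⟩ := noSmall T
  refine ⟨B, hB, ?_⟩
  intro p _ hp hpB hpT hDT k hk
  letI : Fintype (GaloisField p 2) := Fintype.ofFinite _
  have hK : Fintype.card (GaloisField p 2) = p ^ 2 := by
    rw [← Nat.card_eq_fintype_card, GaloisField.card p 2 (by norm_num)]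
  have hk4 : k + 2 ≠ 4 := by intro h; apply hk; linear_combination h
  obtain ⟨G, hGP⟩ := hcore p (by omega) (GaloisField p 2) hK (k + 2) hk4
  refine (hfin p (by omega) (GaloisField p 2) hK k hk G hGP).2 ?_
  intro P hP hPk
  obtain ⟨Q, t, hPQ, hreg, hord, htT⟩ := hsm p hpB (by omega) hpT (GaloisField p 2) hK
    (fun κ => hex p (by omega) (GaloisField p 2) hK κ) P hP (by rw [hPk]; exact hk)
  have hQX : OnX (k + 2) (triple Q) := by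
    refine onX_triple Q (k + 2) ?_
    rw [← lev_nequiv hPQ, hPk]
    ring
  rw [hPk] at hreg
  have hQG : triple Q ∈ G := by
    unfold triple at hQX ⊢
    exact hGP.spec _ _ _ hQX hreg t hord (hDT.trans htT)
  exact (nequiv_mem hPQ G hGP.inv).2 hQG

/-- the threshold of the middle game is at most `X ^ δ` for all `p ≤ X` -/
theorem dv_threshold (δ : ℝ) (hδ : 0 < δ) : ∃ X₀ : ℕ, ∀ X : ℕ, X₀ ≤ X → ∀ p : ℕ, p ≤ X →
    ((2 ^ 31 * (Dv p) ^ 5 : ℕ) : ℝ) ≤ (X : ℝ) ^ δ := by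
  obtain ⟨p₁, h1⟩ := divisors_rpow (δ / 10) (by positivity)
  set M : ℕ := (Finset.range (p₁ + 2)).sup (fun p => 2 ^ 31 * (Dv p) ^ 5) with hM
  have hev : ∀ c : ℝ, ∀ η : ℝ, 0 < η → ∃ p₂ : ℕ, ∀ p : ℕ, p₂ ≤ p → c ≤ (p : ℝ) ^ η := by
    intro c η hη
    have h3 := ((tendsto_rpow_atTop (y := η) hη).comp
      tendsto_natCast_atTop_atTop).eventually_ge_atTop c
    obtain ⟨p₂, hp₂⟩ := Filter.eventually_atTop.1 h3
    exact ⟨p₂, fun p hp => hp₂ p hp⟩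
  obtain ⟨X₁, hX1⟩ := hev (M : ℝ) δ hδ
  obtain ⟨X₂, hX2⟩ := hev (2 ^ 36 : ℝ) (δ / 2) (by positivity)
  refine ⟨X₁ + X₂ + 1, fun X hX p hp => ?_⟩
  have hX0 : (0 : ℝ) < X := by
    have : 1 ≤ X := by omega
    exact_mod_cast this
  by_cases hp1 : p < p₁ + 2
  · have h2 : 2 ^ 31 * (Dv p) ^ 5 ≤ M :=
      Finset.le_sup (f := fun p => 2 ^ 31 * (Dv p) ^ 5) (Finset.mem_range.2 hp1)
    have h3 : ((2 ^ 31 * (Dv p) ^ 5 : ℕ) : ℝ) ≤ (M : ℝ) := by exact_mod_cast h2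
    exact h3.trans (hX1 X (by omega))
  · push Not at hp1
    have hp0 : (0 : ℝ) < p := by
      have : 1 ≤ p := by omega
      exact_mod_cast this
    have h2 : ((Dv p : ℕ) : ℝ) ≤ 2 * (X : ℝ) ^ (δ / 10) := by
      have h3 : ((Dv p : ℕ) : ℝ) ≤ 2 * ((Nat.divisors (p ^ 2 - 1)).card : ℝ) := by
        exact_mod_cast dv_le p (by omega)
      have h4 := h1 p (by omega)
      have h5 : (p : ℝ) ^ (δ / 10) ≤ (X : ℝ) ^ (δ / 10) :=
        Real.rpow_le_rpow hp0.le (by exact_mod_cast hp) (by positivity)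
      linarith
    have h6 := hX2 X (by omega)
    rw [Nat.cast_mul, Nat.cast_pow, Nat.cast_pow, Nat.cast_ofNat]
    calc (2 : ℝ) ^ 31 * ((Dv p : ℕ) : ℝ) ^ 5 ≤ 2 ^ 31 * (2 * (X : ℝ) ^ (δ / 10)) ^ 5 := by
          gcongr
      _ = 2 ^ 36 * (X : ℝ) ^ (δ / 2) := by
          rw [mul_pow, ← Real.rpow_natCast ((X : ℝ) ^ (δ / 10)), ← Real.rpow_mul hX0.le]
          have : δ / 10 * ((5 : ℕ) : ℝ) = δ / 2 := by push_cast; ring
          rw [this]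
          ring
      _ ≤ (X : ℝ) ^ (δ / 2) * (X : ℝ) ^ (δ / 2) := by gcongr
      _ = (X : ℝ) ^ δ := by
          rw [← Real.rpow_add hX0]
          congr 1
          ring

/-- all levels for all primes up to `X` with at most `X ^ ε` exceptions -/
theorem all_levels_most (ε : ℝ) (hε : 0 < ε) : ∃ X₀ : ℕ, ∀ X : ℕ, X₀ ≤ X →
    ∃ B : Finset ℕ, (B.card : ℝ) ≤ (X : ℝ) ^ ε ∧ ∀ (p : ℕ) [Fact p.Prime], p ≤ X → p ∉ B →
      ∀ k : ZMod p, k ≠ 2 → numOrbits p k = expected p k := by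
  obtain ⟨p₀, hall⟩ := all_levels
  set δ := ε / 25 with hδ
  have hδ0 : 0 < δ := by positivity
  obtain ⟨X₁, hX1⟩ := dv_threshold δ hδ0
  have hev : ∀ c : ℝ, ∃ p₂ : ℕ, ∀ p : ℕ, p₂ ≤ p → c ≤ (p : ℝ) ^ δ := by
    intro c
    have h3 := ((tendsto_rpow_atTop (y := δ) hδ0).comp
      tendsto_natCast_atTop_atTop).eventually_ge_atTop c
    obtain ⟨p₂, hp₂⟩ := Filter.eventually_atTop.1 h3
    exact ⟨p₂, fun p hp => hp₂ p hp⟩
  obtain ⟨X₂, hX2⟩ := hev (67 * 3 ^ 12 + p₀ + 1 : ℝ)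
  refine ⟨X₁ + X₂ + 1, fun X hX => ?_⟩
  have hX0 : (0 : ℝ) < X := by
    have : 1 ≤ X := by omega
    exact_mod_cast this
  set T : ℕ := ⌊(X : ℝ) ^ δ⌋₊ with hT
  have hTle : (T : ℝ) ≤ (X : ℝ) ^ δ := Nat.floor_le (by positivity)
  obtain ⟨B, hB, hBp⟩ := hall T
  refine ⟨B ∪ Finset.range (max p₀ (64 * (T ^ 2 + 2) ^ 12 + 1)), ?_, ?_⟩
  · have h1 : (B ∪ Finset.range (max p₀ (64 * (T ^ 2 + 2) ^ 12 + 1))).card ≤
        67 * (T ^ 2 + 2) ^ 12 + p₀ + 1 := by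
      refine (Finset.card_union_le _ _).trans ?_
      rw [Finset.card_range]
      omega
    have hY1 : (1 : ℝ) ≤ (X : ℝ) ^ δ := by
      have := hX2 X (by omega)
      have h0 : (0 : ℝ) ≤ p₀ := by positivity
      linarith [show (0:ℝ) ≤ 67 * 3 ^ 12 by positivity]
    have h2 : ((T : ℝ) ^ 2 + 2) ≤ 3 * ((X : ℝ) ^ δ) ^ 2 := by
      have h3 : (T : ℝ) ^ 2 ≤ ((X : ℝ) ^ δ) ^ 2 := by gcongr
      nlinarith
    have h4 : (((B ∪ Finset.range (max p₀ (64 * (T ^ 2 + 2) ^ 12 + 1))).card : ℕ) : ℝ) ≤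
        67 * ((T : ℝ) ^ 2 + 2) ^ 12 + p₀ + 1 := by exact_mod_cast h1
    calc (((B ∪ Finset.range (max p₀ (64 * (T ^ 2 + 2) ^ 12 + 1))).card : ℕ) : ℝ)
        ≤ 67 * ((T : ℝ) ^ 2 + 2) ^ 12 + p₀ + 1 := h4
      _ ≤ 67 * (3 * ((X : ℝ) ^ δ) ^ 2) ^ 12 + p₀ + 1 := by gcongr
      _ = (67 * 3 ^ 12) * ((X : ℝ) ^ δ) ^ 24 + (p₀ + 1) * 1 := by ring
      _ ≤ (67 * 3 ^ 12) * ((X : ℝ) ^ δ) ^ 24 + (p₀ + 1) * ((X : ℝ) ^ δ) ^ 24 := by
          gcongr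
          exact one_le_pow₀ hY1
      _ = (67 * 3 ^ 12 + p₀ + 1) * ((X : ℝ) ^ δ) ^ 24 := by ring
      _ ≤ (X : ℝ) ^ δ * ((X : ℝ) ^ δ) ^ 24 := by
          gcongr
          exact hX2 X (by omega)
      _ = (X : ℝ) ^ ε := by
          rw [← Real.rpow_natCast ((X : ℝ) ^ δ), ← Real.rpow_mul hX0.le, ← Real.rpow_add hX0]
          congr 1
          rw [hδ]
          push_cast
          ring
  · intro p _ hpX hpB k hk
    rw [Finset.mem_union, not_or, Finset.mem_range, not_lt] at hpB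
    obtain ⟨hpB1, hpB2⟩ := hpB
    refine hBp p (le_trans (le_max_left _ _) hpB2) hpB1
      (lt_of_lt_of_le (Nat.lt_succ_self _) (le_trans (le_max_right _ _) hpB2)) ?_ k hk
    exact Nat.le_floor (hX1 X (by omega) p hpX)

end MW
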